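import Pool.Agent.H88.FL.Uniq
import Pool.Agent.H88.L.W552.Fr

/-!
# Homomorphisms of representations of `sl2` commute with the Weyl operator
-/

set_option linter.unusedSectionVars false

universe u v w

namespace Pool.Agent.H88.HT

open Pool.Agent.H914 Pool.Agent.H88.FL

variable {K : Type u} [Field K] [CharZero K] {V : Type v} [AddCommGroup V] [Module K V]
  [Module.Finite K V] {V' : Type w} [AddCommGroup V'] [Module K V'] [Module.Finite K V']

/-- the action on homomorphisms -/
noncomputable def adh (x' : Module.End K V') (x : Module.End K V) :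
    Module.End K (V →ₗ[K] V') where
  toFun u := x' ∘ₗ u - u ∘ₗ x
  map_add' u v := by
    rw [LinearMap.comp_add, LinearMap.add_comp]
    abel
  map_smul' r u := by
    rw [LinearMap.comp_smul, LinearMap.smul_comp, RingHom.id_apply, smul_sub]

theorem adh_apply (x' : Module.End K V') (x : Module.End K V) (u : V →ₗ[K] V') (a : V) :
    adh x' x u a = x' (u a) - u (x a) := rfl

variable {h e f : Module.End K V} {h' e' f' : Module.End K V'}

theorem two_lin {U : Type*} [AddCommGroup U] [Module K U] (x : U) :
    (2 : Module.End K U) x = x + x := by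
  rw [← one_add_one_eq_two, LinearMap.add_apply, Module.End.one_apply]

theorem adh_sl2 (t : Sl2 h e f) (t' : Sl2 h' e' f') : Sl2 (adh h' h) (adh e' e) (adh f' f) where
  ef := by
    apply LinearMap.ext
    intro u
    apply LinearMap.ext
    intro a
    have h1 := congrArg (fun G => G (u a)) t'.ef
    have h2 := congrArg (fun G => u (G a)) t.ef
    simp only [LinearMap.sub_apply, Module.End.mul_apply, map_sub] at h1 h2
    simp only [LinearMap.sub_apply, Module.End.mul_apply, adh_apply, map_sub, ← h1, ← h2]
    abel
  he := by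
    apply LinearMap.ext
    intro u
    apply LinearMap.ext
    intro a
    have h1 := congrArg (fun G => G (u a)) t'.he
    have h2 := congrArg (fun G => u (G a)) t.he
    simp only [LinearMap.sub_apply, Module.End.mul_apply, map_sub, two_lin, map_add] at h1 h2
    rw [sub_eq_iff_eq_add] at h1 h2
    simp only [LinearMap.sub_apply, Module.End.mul_apply, adh_apply, map_sub, two_lin,
      LinearMap.add_apply, h1, h2]
    abel
  hf := by
    apply LinearMap.ext
    intro u
    apply LinearMap.ext
    intro a
    have h1 := congrArg (fun G => G (u a)) t'.hf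
    have h2 := congrArg (fun G => u (G a)) t.hf
    simp only [LinearMap.sub_apply, Module.End.mul_apply, map_sub, two_lin, map_add,
      LinearMap.neg_apply, map_neg] at h1 h2
    rw [sub_eq_iff_eq_add] at h1 h2
    simp only [LinearMap.sub_apply, Module.End.mul_apply, adh_apply, map_sub, two_lin,
      LinearMap.add_apply, h1, h2, LinearMap.neg_apply]
    abel

/-- **Homomorphisms commute with the lowering operator.** -/
theorem comm_f (t : Sl2 h e f) (t' : Sl2 h' e' f') {U : V →ₗ[K] V'}
    (hh : ∀ x, U (h x) = h' (U x)) (he : ∀ x, U (e x) = e' (U x)) (x : V) :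
    U (f x) = f' (U x) := by
  have h1 : adh h' h U = -((0 : ℕ) : K) • U := by
    apply LinearMap.ext
    intro a
    rw [adh_apply, hh, sub_self, Nat.cast_zero, neg_zero, zero_smul, LinearMap.zero_apply]
  have h2 : (adh e' e ^ (0 + 1)) U = 0 := by
    rw [zero_add, pow_one]
    apply LinearMap.ext
    intro a
    rw [adh_apply, he, sub_self, LinearMap.zero_apply]
  have h3 := Sl2.f_eq_zero (adh_sl2 t t') h1 h2
  have h4 := congrArg (fun G => G x) h3
  simp only [adh_apply, LinearMap.zero_apply] at h4
  exact (sub_eq_zero.1 h4).symm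

theorem comm_pow {a : Module.End K V} {a' : Module.End K V'} {U : V →ₗ[K] V'}
    (h : ∀ x, U (a x) = a' (U x)) (n : ℕ) : ∀ x, U ((a ^ n) x) = (a' ^ n) (U x) := by
  induction n with
  | zero => intro x; rfl
  | succ n ih =>
    intro x
    rw [pow_succ, pow_succ, Module.End.mul_apply, Module.End.mul_apply, ih, h]

/-- **Homomorphisms commute with the Weyl operator.** -/
theorem comm_wey (t : Sl2 h e f) (t' : Sl2 h' e' f') {U : V →ₗ[K] V'}
    (hh : ∀ x, U (h x) = h' (U x)) (he : ∀ x, U (e x) = e' (U x)) (x : V) :
    U (wey e f x) = wey e' f' (U x) := by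
  let _ : Module ℚ (Module.End K V) := Module.compHom (Module.End K V) (algebraMap ℚ K)
  let _ : Module ℚ (Module.End K V') := Module.compHom (Module.End K V') (algebraMap ℚ K)
  have hexp : ∀ {g : Module.End K V} {g' : Module.End K V'}, IsNilpotent g → IsNilpotent g' →
      (∀ x, U (g x) = g' (U x)) → ∀ x, U (IsNilpotent.exp g x) = IsNilpotent.exp g' (U x) := by
    intro g g' hg hg' hc x
    obtain ⟨N, hN⟩ := hg
    obtain ⟨N', hN'⟩ := hg'
    rw [IsNilpotent.exp_eq_sum (pow_eq_zero_of_le (le_max_left N N') hN),
      IsNilpotent.exp_eq_sum (pow_eq_zero_of_le (le_max_right N N') hN'), LinearMap.sum_apply,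
      LinearMap.sum_apply, map_sum]
    refine Finset.sum_congr rfl fun i _ => ?_
    have h1 : ((i.factorial : ℚ)⁻¹ • g ^ i) = (((i.factorial : ℚ)⁻¹ : ℚ) : K) • g ^ i := rfl
    have h2 : ((i.factorial : ℚ)⁻¹ • g' ^ i) = (((i.factorial : ℚ)⁻¹ : ℚ) : K) • g' ^ i := rfl
    rw [h1, h2, LinearMap.smul_apply, LinearMap.smul_apply, map_smul, comm_pow hc]
  have hf := comm_f t t' hh he
  change U (weyl e f x) = weyl e' f' (U x)
  rw [weyl, weyl, Module.End.mul_apply, Module.End.mul_apply, Module.End.mul_apply,
    Module.End.mul_apply, hexp t.nil_e t'.nil_e he, hexp (t.nil_f.neg) (t'.nil_f.neg),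
    hexp t.nil_e t'.nil_e he]
  intro y
  rw [LinearMap.neg_apply, LinearMap.neg_apply, map_neg, hf]

end Pool.Agent.H88.HT
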