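import Pool.Agent.H88.HT.Comm

/-!
# The Hodge form of a polarized variety
-/

open CategoryTheory AlgebraicGeometry Finset

set_option linter.unusedSectionVars false

universe u v w

namespace Pool.Agent.H88.HT

open Pool.Agent.H914 Pool.Agent.H914.VarClass Pool.Agent.H914.VarClass.Obj
  Pool.Agent.H914.WeilCohomology Pool.Agent.H281R3.HT Pool.Agent.W552 Pool.Agent.TH132.A

section dual

variable {K : Type u} [Field K] [CharZero K] {V : Type v} [AddCommGroup V] [Module K V]
  [Module.Finite K V]

/-- the dual representation -/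
theorem dual_sl2 {h e f : Module.End K V} (t : Sl2 h e f) :
    Sl2 (-h.dualMap) e.dualMap f.dualMap where
  ef := by
    apply LinearMap.ext
    intro φ
    apply LinearMap.ext
    intro a
    have h1 := congrArg (fun G => φ (G a)) t.ef
    simp only [LinearMap.sub_apply, Module.End.mul_apply, map_sub] at h1
    simp only [LinearMap.sub_apply, Module.End.mul_apply, LinearMap.dualMap_apply,
      LinearMap.neg_apply, ← h1]
    abel
  he := by
    apply LinearMap.ext
    intro φ
    apply LinearMap.ext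
    intro a
    have h1 := congrArg (fun G => φ (G a)) t.he
    simp only [LinearMap.sub_apply, Module.End.mul_apply, map_sub, two_lin, map_add] at h1
    simp only [LinearMap.sub_apply, Module.End.mul_apply, LinearMap.dualMap_apply,
      LinearMap.neg_apply, two_lin, LinearMap.add_apply, ← h1, map_neg, sub_neg_eq_add]
    abel
  hf := by
    apply LinearMap.ext
    intro φ
    apply LinearMap.ext
    intro a
    have h1 := congrArg (fun G => φ (G a)) t.hf
    simp only [LinearMap.sub_apply, Module.End.mul_apply, map_sub, two_lin, map_add,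
      LinearMap.neg_apply, map_neg] at h1
    simp only [LinearMap.sub_apply, Module.End.mul_apply, LinearMap.dualMap_apply,
      LinearMap.neg_apply, two_lin, LinearMap.add_apply, map_neg, sub_neg_eq_add]
    rw [← h1]
    abel

theorem pair_pow {M : Type w} [AddCommGroup M] [Module K M] {a : Module.End K V}
    {a' : Module.End K M} {B : M →ₗ[K] V →ₗ[K] K} (h : ∀ m x, B (a' m) x = B m (a x)) (n : ℕ) :
    ∀ m x, B ((a' ^ n) m) x = B m ((a ^ n) x) := by
  induction n with
  | zero => intro m x; rfl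
  | succ n ih =>
    intro m x
    rw [pow_succ', Module.End.mul_apply, h, ih, pow_succ, Module.End.mul_apply]

/-- The adjoint of the Weyl operator. -/
theorem pair_wey {M : Type w} [AddCommGroup M] [Module K M] {e f : Module.End K V}
    {e' f' : Module.End K M} {B : M →ₗ[K] V →ₗ[K] K} (he : IsNilpotent e) (hf : IsNilpotent f)
    (he' : IsNilpotent e') (hf' : IsNilpotent f') (hBe : ∀ m x, B (e' m) x = B m (e x))
    (hBf : ∀ m x, B (f' m) x = B m (f x)) (m : M) (x : V) :
    B (wey e' f' m) x = B m (wey e f x) := by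
  let _ : Module ℚ (Module.End K V) := Module.compHom (Module.End K V) (algebraMap ℚ K)
  let _ : Module ℚ (Module.End K M) := Module.compHom (Module.End K M) (algebraMap ℚ K)
  have hexp : ∀ {g : Module.End K V} {g' : Module.End K M}, IsNilpotent g → IsNilpotent g' →
      (∀ m x, B (g' m) x = B m (g x)) → ∀ m x, B (IsNilpotent.exp g' m) x =
        B m (IsNilpotent.exp g x) := by
    intro g g' hg hg' hc m x
    obtain ⟨N, hN⟩ := hg
    obtain ⟨N', hN'⟩ := hg'
    rw [IsNilpotent.exp_eq_sum (pow_eq_zero_of_le (le_max_left N N') hN),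
      IsNilpotent.exp_eq_sum (pow_eq_zero_of_le (le_max_right N N') hN'), LinearMap.sum_apply,
      LinearMap.sum_apply, map_sum, map_sum, LinearMap.sum_apply]
    refine Finset.sum_congr rfl fun i _ => ?_
    have h1 : ((i.factorial : ℚ)⁻¹ • g ^ i) = (((i.factorial : ℚ)⁻¹ : ℚ) : K) • g ^ i := rfl
    have h2 : ((i.factorial : ℚ)⁻¹ • g' ^ i) = (((i.factorial : ℚ)⁻¹ : ℚ) : K) • g' ^ i := rfl
    rw [h1, h2, LinearMap.smul_apply, LinearMap.smul_apply, map_smul, LinearMap.smul_apply,
      map_smul, pair_pow hc]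
  change B (weyl e' f' m) x = B m (weyl e f x)
  rw [weyl, weyl, Module.End.mul_apply, Module.End.mul_apply, Module.End.mul_apply,
    Module.End.mul_apply, hexp he he' hBe, hexp hf.neg hf'.neg, hexp he he' hBe]
  intro m x
  rw [LinearMap.neg_apply, LinearMap.neg_apply, map_neg, map_neg, LinearMap.neg_apply, hBf]

end dual

variable {k : Type u} [Field k] {𝒱 : VarClass k} {ops : CycleOps 𝒱}
  {W : WeilCohomology.{u, v} ops} {X Y : 𝒱.Obj} {D : X.Cycles} {f : Module.End W.K (W.H X)}

theorem low_wt (t : Low W X D f) : wop W X D f * wt (W.isInternal X) X.dim =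
    -(wt (W.isInternal X) X.dim * wop W X D f) :=
  wt_w_aux t.ef (wey_e t) (wey_f t)

theorem low_w_mem (t : Low W X D f) {i : ℕ} (hi : i ≤ 2 * X.dim) {a : W.H X}
    (ha : a ∈ W.gr X i) : wop W X D f a ∈ W.gr X (2 * X.dim - i) := by
  have h1 := congrArg (fun G => G a) (low_wt t)
  simp only [Module.End.mul_apply, LinearMap.neg_apply, Fr.wt_gr ha, map_smul] at h1
  have h2 : wt (W.isInternal X) X.dim (wop W X D f a) =
      ((X.dim : W.K) - i) • wop W X D f a := by
    rw [← neg_neg (wt (W.isInternal X) X.dim _), ← h1, ← neg_smul, neg_sub]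
  refine (mem_gr_of_wt (W.isInternal X) W_hbd h2).1 _ ?_
  rw [Nat.cast_sub hi]
  push_cast
  ring

/-- The operators commute with the Weyl operator if they preserve algebraic classes. -/
theorem wop_AS (hD : X.IsCyc 1 D) (t : Low W X D f) (hs : Stable W X f) {x : W.H X}
    (hx : AS W X x) : AS W X (wop W X D f x) := by
  let _ : Module ℚ (Module.End W.K (W.H X)) :=
    Module.compHom (Module.End W.K (W.H X)) (algebraMap ℚ W.K)
  have hexp : ∀ {g : Module.End W.K (W.H X)}, IsNilpotent g → (∀ x, AS W X x → AS W X (g x)) →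
      ∀ x, AS W X x → AS W X (IsNilpotent.exp g x) := by
    intro g hg hc x hx
    obtain ⟨N, hN⟩ := hg
    have hp : ∀ i : ℕ, AS W X ((g ^ i) x) := by
      intro i
      induction i with
      | zero => exact hx
      | succ i ih =>
        rw [pow_succ', Module.End.mul_apply]
        exact hc _ ih
    rw [IsNilpotent.exp_eq_sum hN, LinearMap.sum_apply]
    refine AS.ratSub.sum _ fun i _ => ?_
    have h1 : ((i.factorial : ℚ)⁻¹ • g ^ i) = (((i.factorial : ℚ)⁻¹ : ℚ) : W.K) • g ^ i := rfl
    rw [h1, LinearMap.smul_apply]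
    exact AS.smul _ (hp i)
  have hL : ∀ x, AS W X x → AS W X (LinearMap.mulLeft W.K (W.cl X D) x) := fun x hx =>
    (AS.of ⟨D, hD, rfl⟩).mul hx
  have hn : ∀ x, AS W X x → AS W X ((-f) x) := fun x hx => by
    rw [LinearMap.neg_apply]
    exact AS.ratSub.neg (hs x hx)
  change AS W X (weyl (LinearMap.mulLeft W.K (W.cl X D)) f x)
  rw [weyl, Module.End.mul_apply, Module.End.mul_apply]
  exact hexp t.nil_e hL _ (hexp t.nil_f.neg hn _ (hexp t.nil_e hL _ hx))

theorem st_AS' (hD : X.IsCyc 1 D) (t : Low W X D f) (hs : Stable W X f) {x : W.H X}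
    (hx : AS W X x) : AS W X (st W X D f x) := by
  refine AS.ind (p := fun x => AS W X (st W X D f x)) ?_ ?_ hx
  · intro j x hx
    rw [st_apply (alg_gr hx)]
    have := (wop_AS hD t hs (AS.of hx)).smul (sg (2 * j) : ℚ)
    simpa using this
  · intro a b ha hb
    rw [map_add]
    exact ha.add hb

theorem bf_rat' (hD : X.IsCyc 1 D) (t : Low W X D f) (hs : Stable W X f) {x y : W.H X}
    (hx : AS W X x) (hy : AS W X y) : ∃ q : ℚ, bf W X D f x y = q := by
  rw [bf_apply]
  exact (hx.mul (st_AS' hD t hs hy)).tr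

theorem bf_deg' (t : Low W X D f) {i j : ℕ} {a b : W.H X} (ha : a ∈ W.gr X i)
    (hb : b ∈ W.gr X j) (hij : i ≠ j) : bf W X D f a b = 0 := by
  by_cases hj : j ≤ 2 * X.dim
  · rw [bf_apply, st_apply hb, mul_smul_comm, map_smul,
      W.tr_eq_zero (W.mul_mem ha (low_w_mem t hj hb)) (by omega), smul_zero]
  · rw [W.gr_eq_bot X j (by omega)] at hb
    rw [(Submodule.mem_bot _).1 hb, map_zero]

/-- the Weyl operator is self-adjoint -/
theorem w_self' (hD : X.IsCyc 1 D) (t : Low W X D f) (a b : W.H X) :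
    W.tr X (wop W X D f a * b) = W.tr X (a * wop W X D f b) := by
  have h1 : ∀ x, (bil W X) (LinearMap.mulLeft W.K (W.cl X D) x) =
      (LinearMap.mulLeft W.K (W.cl X D)).dualMap (bil W X x) := by
    intro x
    apply LinearMap.ext
    intro y
    rw [LinearMap.dualMap_apply, bil_apply, bil_apply, LinearMap.mulLeft_apply,
      LinearMap.mulLeft_apply, (AS.of (W := W) ⟨D, hD, rfl⟩ : AS W X (W.cl X D)).comm x, mul_assoc]
  have h2 : ∀ x, (bil W X) (wt (W.isInternal X) X.dim x) =
      (-(wt (W.isInternal X) X.dim).dualMap) (bil W X x) := by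
    intro x
    apply LinearMap.ext
    intro y
    rw [LinearMap.neg_apply, LinearMap.neg_apply, LinearMap.dualMap_apply, bil_apply, bil_apply]
    refine gr_induction (W.isInternal X) (p := fun x => W.tr X (wt (W.isInternal X) X.dim x * y) =
      -W.tr X (x * wt (W.isInternal X) X.dim y)) ?_ ?_ x
    swap
    · intro a b ha hb
      rw [map_add, add_mul, map_add, ha, hb, add_mul, map_add, neg_add]
    intro i x hx
    refine gr_induction (W.isInternal X) (p := fun y => W.tr X (wt (W.isInternal X) X.dim x * y) =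
      -W.tr X (x * wt (W.isInternal X) X.dim y)) ?_ ?_ y
    swap
    · intro a b ha hb
      rw [map_add, mul_add, map_add, ha, hb, mul_add, map_add, neg_add]
    intro j y hy
    rw [Fr.wt_gr hx, Fr.wt_gr hy, smul_mul_assoc, mul_smul_comm, map_smul, map_smul]
    by_cases hij : i + j = 2 * X.dim
    · rw [smul_eq_mul, smul_eq_mul, ← neg_mul]
      congr 1
      have : (i : W.K) + j = 2 * X.dim := by exact_mod_cast hij
      linear_combination this
    · rw [W.tr_eq_zero (W.mul_mem hx hy) hij, smul_zero, smul_zero, neg_zero]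
  have h3 := comm_f t (dual_sl2 t) h2 h1
  have h4 := pair_wey (B := bil W X) t.nil_e t.nil_f t.nil_e t.nil_f
    (fun m x => congrArg (fun φ => φ x) (h1 m)) (fun m x => congrArg (fun φ => φ x) (h3 m)) a b
  rw [bil_apply, bil_apply] at h4
  exact h4

theorem bf_symm' (hD : X.IsCyc 1 D) (t : Low W X D f) {i j : ℕ} {a b : W.H X}
    (ha : a ∈ W.gr X (2 * i)) (hb : b ∈ W.gr X (2 * j)) :
    bf W X D f a b = bf W X D f b a := by
  by_cases hij : i = j
  · subst hij
    rw [bf_apply, bf_apply, st_apply ha, st_apply hb, mul_smul_comm, mul_smul_comm, map_smul,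
      map_smul, ← w_self' hD t, W.even_comm hb]
  · rw [bf_deg' t ha hb (by omega), bf_deg' t hb ha (by omega)]

theorem bf_symm_AS (hD : X.IsCyc 1 D) (t : Low W X D f) {a b : W.H X}
    (ha : AS W X a) (hb : AS W X b) : bf W X D f a b = bf W X D f b a := by
  refine AS.ind (p := fun a => bf W X D f a b = bf W X D f b a) ?_ ?_ ha
  swap
  · intro x y hx hy
    rw [map_add, LinearMap.add_apply, hx, hy, map_add]
  intro i a ha
  refine AS.ind (p := fun b => bf W X D f a b = bf W X D f b a) ?_ ?_ hb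
  swap
  · intro x y hx hy
    rw [map_add, hx, hy, map_add, LinearMap.add_apply]
  intro j b hb
  exact bf_symm' hD t (alg_gr ha) (alg_gr hb)

/-- **Positivity of the form on the algebraic classes.** -/
theorem bf_pos' (hD : X.IsCyc 1 D) (t : Low W X D f) (hA : LefschetzA W X D)
    (hH : HodgeType W X D) {x : W.H X} (hx : AS W X x) (hx0 : x ≠ 0) :
    ∃ q : ℚ, 0 < q ∧ bf W X D f x x = q := by
  classical
  have hC := algPart hD hA hH
  set L : Module.End W.K (W.H X) := LinearMap.mulLeft W.K (W.cl X D) with hL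
  have hw1 : wey L f * L = -(f * wey L f) := wey_e t
  have hw3 : ∀ (m : ℕ) (v : W.H X), f v = 0 → wt (W.isInternal X) X.dim v = -(m : W.K) • v →
      wey L f v = ((m.factorial : W.K)⁻¹) • (L ^ m) v := fun m v hv hm => wey_lowest t hv hm
  have hHw : ∀ i, ∀ a ∈ W.gr X i, wt (W.isInternal X) X.dim a = ((i : W.K) - X.dim) • a :=
    fun i a ha => Fr.wt_gr ha
  have hlow : ∀ i ≤ X.dim, ∀ a ∈ W.gr X i, (L ^ (X.dim - i + 1)) a = 0 → f a = 0 := by
    intro i hi a ha h0
    refine Sl2.f_eq_zero t (M := X.dim - i) ?_ h0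
    rw [hHw i a ha, Nat.cast_sub hi]
    congr 1
    ring
  have key : ∀ j, ∃ q : ℚ, 0 ≤ q ∧ (proj (W.isInternal X) (2 * j) x ≠ 0 → 0 < q) ∧
      bf W X D f (proj (W.isInternal X) (2 * j) x) (proj (W.isInternal X) (2 * j) x) = q := by
    intro j
    have h1 := hx.proj j
    by_cases h0 : proj (W.isInternal X) (2 * j) x = 0
    · exact ⟨0, le_rfl, fun h => absurd h0 h, by rw [h0]; simp⟩
    obtain ⟨s, hs, hs'⟩ := hC.weyl_pos t hw1 hw3 hlow hHw (mulLeft_isHom hD) W_hbd h1 h0
    refine ⟨(-1) ^ j * s, hs'.le, fun _ => hs', ?_⟩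
    rw [bf_apply, st_apply (alg_gr h1), mul_smul_comm, map_smul, ← bil_apply]
    rw [hL] at hs
    rw [hs, sg_two_mul, smul_eq_mul]
    push_cast
    rfl
  choose q hq0 hq1 hq2 using key
  refine ⟨∑ j ∈ Finset.range (X.dim + 1), q j, ?_, ?_⟩
  · have hex : ∃ j ∈ Finset.range (X.dim + 1), proj (W.isInternal X) (2 * j) x ≠ 0 := by
      by_contra h0
      push Not at h0
      apply hx0
      rw [Fr.AS_sum hx, Finset.sum_eq_zero h0]
    obtain ⟨j, hj, hj0⟩ := hex
    exact Finset.sum_pos' (fun b hb => hq0 b) ⟨j, hj, hq1 j hj0⟩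
  · have h1 : bf W X D f x x = bf W X D f
        (∑ j ∈ Finset.range (X.dim + 1), proj (W.isInternal X) (2 * j) x)
        (∑ j ∈ Finset.range (X.dim + 1), proj (W.isInternal X) (2 * j) x) := by
      rw [← Fr.AS_sum hx]
    rw [h1, map_sum (bf W X D f), LinearMap.sum_apply, Rat.cast_sum]
    apply Finset.sum_congr rfl
    intro j hj
    rw [map_sum, Finset.sum_eq_single j, hq2]
    · intro i _ hi
      exact bf_deg' t (proj_mem _ _ _) (proj_mem _ _ _) (by omega)
    · intro h0; exact absurd hj h0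

/-- The value of the form on a primitive algebraic class. -/
theorem form_prim' (t : Low W X D f) (hD : X.IsCyc 1 D) {j : ℕ} (hj : 2 * j ≤ X.dim)
    {z : X.Cycles} (hz : X.IsCyc j z)
    (hprim : W.cl X (divPow ops D (X.dim - 2 * j + 1) z) = 0) :
    bf W X D f (W.cl X z) (W.cl X z) = (((-1) ^ j * (((X.dim - 2 * j).factorial : ℚ)⁻¹ *
        X.V.degCycle (ops.mul z (divPow ops D (X.dim - 2 * j) z))) : ℚ) : W.K) := by
  set L : Module.End W.K (W.H X) := LinearMap.mulLeft W.K (W.cl X D) with hLdef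
  have hcg : W.cl X z ∈ W.gr X (2 * j) := W.cl_mem hz
  have hwt : wt (W.isInternal X) X.dim (W.cl X z) =
      -((X.dim - 2 * j : ℕ) : W.K) • W.cl X z := by
    rw [wt, scal_apply _ _ hcg, node]
    congr 1
    rw [Nat.cast_sub hj]
    push_cast
    ring
  have hfz : f (W.cl X z) = 0 := by
    apply Sl2.f_eq_zero t hwt
    rw [← cl_divPow]
    exact hprim
  have h4 := wey_lowest t hfz hwt
  rw [bf_apply, st_apply hcg, wop, h4, smul_comm, mul_smul_comm, map_smul, mul_smul_comm,
    map_smul, ← cl_divPow, ← W.cl_mul, W.tr_cl, sg_two_mul]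
  · simp only [smul_eq_mul]
    push_cast
    ring
  · have := ops.mul_mem hz (divPow_mem (ops := ops) hD (X.dim - 2 * j) hz)
    rwa [show j + (j + (X.dim - 2 * j)) = X.dim by omega] at this

/-- **The conjecture of Hodge type from the positivity of the form.** -/
theorem hodge_of_pos (t : Low W X D f) (hD : X.IsCyc 1 D)
    (hpos : ∀ x, AS W X x → x ≠ 0 → ∃ q : ℚ, 0 < q ∧ bf W X D f x x = q) :
    HodgeType W X D := by
  intro j hj z hz hprim hz0
  obtain ⟨q, hq, hq'⟩ := hpos _ (AS.of ⟨z, hz, rfl⟩) hz0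
  rw [form_prim' t hD hj hz hprim] at hq'
  have h1 : (-1) ^ j * (((X.dim - 2 * j).factorial : ℚ)⁻¹ *
        X.V.degCycle (ops.mul z (divPow ops D (X.dim - 2 * j) z))) = q := by
    exact_mod_cast hq'
  have h2 : (0 : ℚ) < (X.dim - 2 * j).factorial := by exact_mod_cast Nat.factorial_pos _
  have h3 : (-1 : ℚ) ^ j * X.V.degCycle (ops.mul z (divPow ops D (X.dim - 2 * j) z)) =
      (X.dim - 2 * j).factorial * q := by
    rw [← h1]
    field_simp
  rw [h3]
  exact mul_pos h2 hq

end Pool.Agent.H88.HT
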