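import Pool.Agent.H88.HT.Form

/-!
# The Hodge form of a product
-/

open CategoryTheory AlgebraicGeometry

set_option linter.unusedSectionVars false

universe u v w

namespace Pool.Agent.H88.HT

open Pool.Agent.H914 Pool.Agent.H914.VarClass Pool.Agent.H914.VarClass.Obj
  Pool.Agent.H914.WeilCohomology Pool.Agent.H281R3.HT Pool.Agent.W552 Pool.Agent.TH132.A

variable {k : Type u} [Field k] {𝒱 : VarClass k} {ops : CycleOps 𝒱}
  {W : WeilCohomology.{u, v} ops} {X Y : 𝒱.Obj} {D : X.Cycles} {f : Module.End W.K (W.H X)}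

/-- The form on a product. -/
theorem bf_ext' (t : Low W X D f) {E : Y.Cycles} {f' : Module.End W.K (W.H Y)}
    (t' : Low W Y E f') (hE : Y.IsCyc 1 E) (a a' : W.H X) (b b' : W.H Y) :
    bf W (X.prod Y) (ops.pull (fst X Y) D + ops.pull (snd X Y) E) (extSum W f f')
      (ext W a b) (ext W a' b') = bf W X D f a a' * bf W Y E f' b b' := by
  refine gr_induction (W.isInternal Y) (p := fun b => bf W (X.prod Y)
    (ops.pull (fst X Y) D + ops.pull (snd X Y) E) (extSum W f f')
      (ext W a b) (ext W a' b') = bf W X D f a a' * bf W Y E f' b b') ?_ ?_ b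
  swap
  · intro b c hb hc
    rw [show ext W a (b + c) = ext W a b + ext W a c by simp only [ext, map_add, mul_add],
      map_add, LinearMap.add_apply, hb, hc, map_add, LinearMap.add_apply, mul_add]
  intro j b hb
  refine gr_induction (W.isInternal X) (p := fun a' => bf W (X.prod Y)
    (ops.pull (fst X Y) D + ops.pull (snd X Y) E) (extSum W f f')
      (ext W a b) (ext W a' b') = bf W X D f a a' * bf W Y E f' b b') ?_ ?_ a'
  swap
  · intro a' c hb hc
    rw [show ext W (a' + c) b' = ext W a' b' + ext W c b' by simp only [ext, map_add, add_mul],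
      map_add, hb, hc, map_add, add_mul]
  intro i' a' ha'
  refine gr_induction (W.isInternal Y) (p := fun b' => bf W (X.prod Y)
    (ops.pull (fst X Y) D + ops.pull (snd X Y) E) (extSum W f f')
      (ext W a b) (ext W a' b') = bf W X D f a a' * bf W Y E f' b b') ?_ ?_ b'
  swap
  · intro b' c hb hc
    rw [show ext W a' (b' + c) = ext W a' b' + ext W a' c by simp only [ext, map_add, mul_add],
      map_add, hb, hc, map_add, mul_add]
  intro j' b' hb'
  have hmem : ext W a' b' ∈ W.gr (X.prod Y) (i' + j') :=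
    W.mul_mem (W.map_mem _ ha') (W.map_mem _ hb')
  by_cases hi' : i' ≤ 2 * X.dim
  swap
  · rw [W.gr_eq_bot X i' (by omega)] at ha'
    rw [(Submodule.mem_bot _).1 ha']
    simp [ext]
  by_cases hjj : j = j'
  · subst hjj
    rw [bf_apply, st_apply hmem, mul_smul_comm, map_smul, ext, ext,
      form_mul t t' hE hb (low_w_mem t hi' ha'), bf_apply, bf_apply, st_apply ha',
      st_apply hb', mul_smul_comm, mul_smul_comm, map_smul, map_smul, sg_add]
    simp only [smul_eq_mul]
    have h1 : (-1 : W.K) ^ (j * (2 * X.dim - i')) = (-1) ^ (i' * j) := by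
      have h2 : (-1 : W.K) ^ (j * (2 * X.dim - i')) * (-1) ^ (i' * j) = 1 := by
        rw [← pow_add, show j * (2 * X.dim - i') + i' * j = j * (2 * X.dim - i' + i') by ring,
          show 2 * X.dim - i' + i' = 2 * X.dim by omega, mul_left_comm, pow_mul]
        simp
      have h3 : (-1 : W.K) ^ (i' * j) * (-1) ^ (i' * j) = 1 := by rw [← mul_pow]; simp
      calc (-1 : W.K) ^ (j * (2 * X.dim - i')) =
          (-1 : W.K) ^ (j * (2 * X.dim - i')) * ((-1 : W.K) ^ (i' * j) * (-1) ^ (i' * j)) := by
            rw [h3, mul_one]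
        _ = _ := by rw [← mul_assoc, h2, one_mul]
    rw [h1]
    push_cast
    have h3 : (-1 : W.K) ^ (i' * j) * (-1) ^ (i' * j) = 1 := by rw [← mul_pow]; simp
    linear_combination ((sg i' : W.K) * (sg j : W.K) * (W.tr X (a * wop W X D f a') *
      W.tr Y (b * wop W Y E f' b'))) * h3
  · rw [bf_deg' t' hb hb' hjj, mul_zero, bf_apply, st_apply hmem, mul_smul_comm, map_smul, ext,
      ext, form_mul t t' hE hb (low_w_mem t hi' ha')]
    have h0 := bf_deg' t' hb hb' hjj
    rw [bf_apply, st_apply hb', mul_smul_comm, map_smul, smul_eq_mul] at h0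
    rcases mul_eq_zero.1 h0 with h1 | h1
    · exfalso
      have h2 : (sg j' : W.K) * (sg j' : W.K) = 1 := by
        have := congrArg (Int.cast (R := W.K)) (sg_sq j')
        push_cast at this
        exact this
      rw [h1, mul_zero] at h2
      exact zero_ne_one h2
    · rw [h1]; simp

/-- The form and algebraic classes. -/
theorem bf_star (hD : X.IsCyc 1 D) (t : Low W X D f) {e : W.H X} (he : AS W X e) (x : W.H X) :
    bf W X D f e x = W.tr X (st W X D f e * x) := by
  refine AS.ind (p := fun e => bf W X D f e x = W.tr X (st W X D f e * x)) ?_ ?_ he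
  swap
  · intro a b ha hb
    rw [map_add, LinearMap.add_apply, ha, hb, map_add, add_mul, map_add]
  intro i e he
  refine gr_induction (W.isInternal X) (p := fun x => bf W X D f e x =
    W.tr X (st W X D f e * x)) ?_ ?_ x
  swap
  · intro a b ha hb
    rw [map_add, ha, hb, mul_add, map_add]
  intro j x hx
  by_cases hi2 : 2 * i ≤ 2 * X.dim
  swap
  · have h1 := alg_gr he
    rw [W.gr_eq_bot X (2 * i) (by omega)] at h1
    rw [(Submodule.mem_bot _).1 h1]
    simp
  by_cases hij : 2 * i = j
  · subst hij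
    rw [bf_apply, st_apply hx, st_apply (alg_gr he), mul_smul_comm, smul_mul_assoc, map_smul,
      map_smul, w_self' hD t]
  · rw [bf_deg' t (alg_gr he) hx hij, st_apply (alg_gr he), smul_mul_assoc, map_smul,
      W.tr_eq_zero (W.mul_mem (low_w_mem t hi2 (alg_gr he)) hx) (by omega), smul_zero]

/-- **Equivariant maps and the star operator.** -/
theorem star_comm {f' : Module.End W.K (W.H Y)} {E : Y.Cycles} (t : Low W X D f)
    (t' : Low W Y E f') {l : ℕ} (hdim : X.dim = Y.dim + 2 * l) {U : W.H X →ₗ[W.K] W.H Y}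
    (hU : ∀ i, ∀ x ∈ W.gr X (i + 2 * l), U x ∈ W.gr Y i) (hU0 : ∀ i < 2 * l, ∀ x ∈ W.gr X i, U x = 0)
    (hL : ∀ x, U (W.cl X D * x) = W.cl Y E * U x) (x : W.H X) :
    U (st W X D f x) = (-1 : W.K) ^ l • st W Y E f' (U x) := by
  have hwt : ∀ x, U (wt (W.isInternal X) X.dim x) = wt (W.isInternal Y) Y.dim (U x) := by
    intro x
    refine gr_induction (W.isInternal X) (p := fun x => U (wt (W.isInternal X) X.dim x) =
      wt (W.isInternal Y) Y.dim (U x)) ?_ ?_ x
    swap
    · intro a b ha hb
      rw [map_add, map_add, ha, hb, map_add, map_add]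
    intro j x hx
    rw [Fr.wt_gr hx, map_smul]
    by_cases hj : j < 2 * l
    · rw [hU0 j hj x hx, smul_zero, map_zero]
    · obtain ⟨i, rfl⟩ := Nat.exists_eq_add_of_le' (not_lt.1 hj)
      rw [Fr.wt_gr (hU i x hx)]
      congr 1
      rw [hdim]
      push_cast
      ring
  have hw := comm_wey t t' hwt (fun x => hL x)
  refine gr_induction (W.isInternal X) (p := fun x => U (st W X D f x) =
    (-1 : W.K) ^ l • st W Y E f' (U x)) ?_ ?_ x
  swap
  · intro a b ha hb
    rw [map_add, map_add, ha, hb, map_add, map_add, smul_add]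
  intro j x hx
  rw [st_apply hx, map_smul]
  have h1 : U (wop W X D f x) = wop W Y E f' (U x) := hw x
  rw [h1]
  by_cases hj : j < 2 * l
  · rw [hU0 j hj x hx, map_zero, smul_zero, map_zero, smul_zero]
  · obtain ⟨i, rfl⟩ := Nat.exists_eq_add_of_le' (not_lt.1 hj)
    rw [st_apply (hU i x hx), smul_smul, sg_add, sg_two_mul]
    congr 1
    have h2 : ((-1 : W.K)) ^ (i * (2 * l)) = 1 := by
      rw [show i * (2 * l) = 2 * (i * l) by ring, pow_mul]
      simp
    push_cast
    rw [h2]
    ring

end Pool.Agent.H88.HT
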