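import Pool.Agent.H88.HT.Slot2
import Pool.Agent.H88.FL.Geo13

/-!
# The Hodge form and the contractions
-/

open CategoryTheory AlgebraicGeometry

set_option linter.unusedSectionVars false

universe u v w

namespace Pool.Agent.H88.HT

open Pool.Agent.H914 Pool.Agent.H914.VarClass Pool.Agent.H914.VarClass.Obj
  Pool.Agent.H914.WeilCohomology Pool.Agent.H281R3.HT Pool.Agent.TH132.A
open Pool.Agent.W552 (AS RatSub)
open Pool.Agent.H88.FL hiding bf bf_apply st sg

variable {k : Type u} [Field k] {𝒱 : VarClass k} {ops : CycleOps 𝒱}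
  {W : WeilCohomology.{u, v} ops} {X Y : 𝒱.Obj} {D : X.Cycles} {E : Y.Cycles}
  {f : Module.End W.K (W.H X)} {f' : Module.End W.K (W.H Y)}

section push

variable {R : X ⟶ Y} {θ : W.H X} {l : ℕ}

theorem push_gr (hθ : θ ∈ W.gr X (2 * l)) (hdim : X.dim = Y.dim + 2 * l) {i : ℕ} {x : W.H X}
    (hx : x ∈ W.gr X (i + 2 * l)) : W.push R (θ * x) ∈ W.gr Y i := by
  have h2 := W.push_mem R (W.mul_mem hθ hx)
  have h3 : ((2 * l + (i + 2 * l) : ℕ) : ℤ) + 2 * ((Y.dim : ℤ) - X.dim) = ((i : ℕ) : ℤ) := by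
    rw [hdim]
    push_cast
    ring
  rwa [h3, grZ_natCast] at h2

theorem push_gr_zero (hθ : θ ∈ W.gr X (2 * l)) (hdim : X.dim = Y.dim + 2 * l) {i : ℕ}
    (hi : i < 2 * l) {x : W.H X} (hx : x ∈ W.gr X i) : W.push R (θ * x) = 0 := by
  have h2 := W.push_mem R (W.mul_mem hθ hx)
  have h3 : ((2 * l + i : ℕ) : ℤ) + 2 * ((Y.dim : ℤ) - X.dim) = (i : ℤ) - 2 * l := by
    rw [hdim]
    push_cast
    ring
  rw [h3, grZ_of_neg (by omega)] at h2
  exact (Submodule.mem_bot _).1 h2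

/-- **The adjoint of the contraction.** -/
theorem bf_contr (t : Low W X D f) (t' : Low W Y E f') (hθA : AS W X θ)
    (hθ : θ ∈ W.gr X (2 * l)) (hdim : X.dim = Y.dim + 2 * l)
    (hL : ∀ x, W.push R (θ * (W.cl X D * x)) = W.cl Y E * W.push R (θ * x)) {z : W.H Y}
    (hz : AS W Y z) (y : W.H X) : W552.bf W X D f (θ * W.map R z) y =
      (-1 : W.K) ^ l * W552.bf W Y E f' z (W.push R (θ * y)) := by
  have h1 := star_comm (U := W.push R ∘ₗ LinearMap.mulLeft W.K θ) t t' hdim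
    (fun i x hx => push_gr hθ hdim hx) (fun i hi x hx => push_gr_zero hθ hdim hi hx)
    (fun x => hL x) y
  have h2 : W.push R (θ * W552.st W X D f y) = (-1 : W.K) ^ l •
    W552.st W Y E f' (W.push R (θ * y)) := h1
  have h3 : θ * W.map R z * W552.st W X D f y = θ * W552.st W X D f y * W.map R z := by
    rw [mul_assoc, (hz.map R).comm, ← mul_assoc]
  rw [W552.bf_apply, W552.bf_apply, h3, ← W.tr_push, h2, smul_mul_assoc, map_smul, smul_eq_mul,
    ← hz.comm]

end push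

section two

variable {Z : Polarized 𝒱} {n : ℕ} {Q : Fin (n + 2) → Polarized 𝒱} {a : Fin (n + 2)}
  {b : Fin (n + 1)} {I : Type} [Fintype I] {sc : I → W.K} {p : I → W.H (Q a).X}
  {q : I → W.H (Q (a.succAbove b)).X}

/-- The class `θ` and the class of the divisor. -/
theorem th_L (hcyc : ∀ t, (Q t).X.IsCyc 1 (Q t).D)
    (hDp : ∀ i, W.cl (Q a).X (Q a).D * p i = 0)
    (hDq : ∀ i, W.cl (Q (a.succAbove b)).X (Q (a.succAbove b)).D * q i = 0)
    (x : W.H (VV ops Z (n + 2) Q)) :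
    th W Z a b sc p q * (W.cl _ (mixProd ops Z (n + 2) Q).D * x) =
      th W Z a b sc p q * (W.map (rr ops Z Q a b) (W.cl _ (mixProd ops Z n
        fun t => Q (a.succAbove (b.succAbove t))).D) * x) := by
  have hAa : AS W (Q a).X (W.cl (Q a).X (Q a).D) := AS.of ⟨_, hcyc _, rfl⟩
  have hAb : AS W (Q (a.succAbove b)).X (W.cl (Q (a.succAbove b)).X (Q (a.succAbove b)).D) :=
    AS.of ⟨_, hcyc _, rfl⟩
  have h1 : W.cl _ (mixProd ops Z (n + 2) Q).D = pi' W Z a (W.cl (Q a).X (Q a).D) +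
      (pi' W Z (a.succAbove b) (W.cl (Q (a.succAbove b)).X (Q (a.succAbove b)).D) +
        W.map (rr ops Z Q a b) (W.cl _ (mixProd ops Z n
          fun t => Q (a.succAbove (b.succAbove t))).D)) := by
    have h2 := rem_D (W := W) (Z := Z) (Q := Q) a
    have h3 := rem_D (W := W) (Z := Z) (Q := fun t => Q (a.succAbove t)) b
    rw [h2, h3, map_add, rr, W.map_comp]
    congr 2
    exact rem_pi a b _
  have ha : th W Z a b sc p q * pi' W Z a (W.cl (Q a).X (Q a).D) = 0 := by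
    rw [th, Finset.sum_mul]
    refine Finset.sum_eq_zero fun i _ => ?_
    have h2 : AS W (VV ops Z (n + 2) Q) (pi' W Z a (W.cl (Q a).X (Q a).D)) := hAa.map _
    have h3 : pi' W Z (Q := Q) a (W.cl (Q a).X (Q a).D) * pi' W Z a (p i) =
      pi' W Z a (W.cl (Q a).X (Q a).D * p i) := (map_mul _ _ _).symm
    have h4 : pi' W Z (Q := Q) a (0 : W.H (Q a).X) = 0 := map_zero _
    rw [smul_mul_assoc, ← h2.comm, ← mul_assoc, h3, hDp, h4, zero_mul, smul_zero]
  have hb : th W Z a b sc p q *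
      pi' W Z (a.succAbove b) (W.cl (Q (a.succAbove b)).X (Q (a.succAbove b)).D) = 0 := by
    rw [th, Finset.sum_mul]
    refine Finset.sum_eq_zero fun i _ => ?_
    have h2 : AS W (VV ops Z (n + 2) Q) (pi' W Z (a.succAbove b)
      (W.cl (Q (a.succAbove b)).X (Q (a.succAbove b)).D)) := hAb.map _
    have h3 : pi' W Z (Q := Q) (a.succAbove b)
        (W.cl (Q (a.succAbove b)).X (Q (a.succAbove b)).D) * pi' W Z (a.succAbove b) (q i) =
      pi' W Z (a.succAbove b) (W.cl (Q (a.succAbove b)).X (Q (a.succAbove b)).D * q i) :=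
        (map_mul _ _ _).symm
    have h4 : pi' W Z (Q := Q) (a.succAbove b) (0 : W.H (Q (a.succAbove b)).X) = 0 := map_zero _
    rw [smul_mul_assoc, mul_assoc, ← h2.comm, h3, hDq, h4, mul_zero, smul_zero]
  rw [h1, add_mul, add_mul, mul_add, mul_add, ← mul_assoc, ha, zero_mul, zero_add,
    ← mul_assoc, hb, zero_mul, zero_add]

/-- The contraction commutes with the product with the class of the divisor. -/
theorem contr_L (hZ : Z.X.IsCyc 1 Z.D) (hcyc : ∀ t, (Q t).X.IsCyc 1 (Q t).D)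
    (hDp : ∀ i, W.cl (Q a).X (Q a).D * p i = 0)
    (hDq : ∀ i, W.cl (Q (a.succAbove b)).X (Q (a.succAbove b)).D * q i = 0)
    (x : W.H (VV ops Z (n + 2) Q)) :
    W.push (rr ops Z Q a b) (th W Z a b sc p q * (W.cl _ (mixProd ops Z (n + 2) Q).D * x)) =
      W.cl _ (mixProd ops Z n fun t => Q (a.succAbove (b.succAbove t))).D *
        W.push (rr ops Z Q a b) (th W Z a b sc p q * x) := by
  have hA : AS W _ (W.cl _ (mixProd ops Z n fun t => Q (a.succAbove (b.succAbove t))).D) :=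
    AS.of ⟨_, isCyc_D hZ fun t => hcyc _, rfl⟩
  rw [th_L hcyc hDp hDq, (hA.map (rr ops Z Q a b)).comm x, ← mul_assoc, W.push_mul, hA.comm]

end two

end Pool.Agent.H88.HT
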