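import Pool.Agent.H88.HT.Pair1

/-!
# The contraction operators
-/

open CategoryTheory AlgebraicGeometry Finset Function

set_option linter.unusedSectionVars false

universe u v w

namespace Pool.Agent.H88.HT

open Pool.Agent.H914 Pool.Agent.H914.VarClass Pool.Agent.H914.VarClass.Obj
  Pool.Agent.H914.WeilCohomology Pool.Agent.H281R3.HT Pool.Agent.TH132.A
open Pool.Agent.W552 (AS RatSub)
open Pool.Agent.H88.FL hiding bf bf_apply sg

variable {k : Type u} [Field k] {𝒱 : VarClass k} {ops : CycleOps 𝒱}
  {W : WeilCohomology.{u, v} ops} {Z : Polarized 𝒱} {ι : Type} {P : ι → Polarized 𝒱}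
  [Fintype ι] [DecidableEq ι] {g : ι → ℕ}
  {b : ∀ i, Module.Basis (Fin (g i) × Bool) W.K (transcendental W (P i).X)}

/-- **The contraction operators.** -/
theorem exists_pdata (S : Setting W Z P)
    (hb : ∀ i x y, FL.bf W P i (b i x) (b i y) = sf W.K x y) {n : ℕ} (c : Fin n → ι)
    (h1 : (1 : W.H (VV ops Z n fun s => P (c s))) ≠ 0) {s t : Fin n} (hst : s ≠ t)
    (hc : c s = c t) : ∃ (m : ℕ) (c' : Fin m → ι)
      (R : VV ops Z n (fun s => P (c s)) ⟶ VV ops Z m (fun s => P (c' s)))
      (θ : W.H (VV ops Z n fun s => P (c s))) (κ : ℚ) (l : ℕ), m < n ∧ AS W _ θ ∧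
      θ ∈ W.gr _ (2 * l) ∧ (VV ops Z n fun s => P (c s)).dim =
        (VV ops Z m fun s => P (c' s)).dim + 2 * l ∧ 0 ≤ κ * (-1) ^ l ∧
      (∀ x, W.push R (θ * (W.cl _ (mixProd ops Z n fun s => P (c s)).D * x)) =
        W.cl _ (mixProd ops Z m fun s => P (c' s)).D * W.push R (θ * x)) ∧
      ∀ h, cd b c ((κ : W.K) • (θ * W.map R (W.push R (θ * h)))) =
        mv W.K (KK s t) (cd b c h) := by
  match n, c, h1, s, t, hst, hc with
  | 0, _, _, s, _, _, _ => exact s.elim0
  | 1, _, _, s, t, hst, _ => exact absurd (Subsingleton.elim s t) hst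
  | n + 2, c, h1, a, t, hst, hc =>
    obtain ⟨b', rfl⟩ := Fin.exists_succAbove_eq hst.symm
    have h1' := one_ne_rem a h1
    obtain ⟨t, ht0, ht⟩ := exists_rem_push (W := W) a h1
    obtain ⟨t', ht0', ht'⟩ := exists_rem_push (W := W) (Q := fun t => P (c (a.succAbove t))) b' h1'
    have et : t = 1 := t_one (fun t => S.num (c t)) h1 ht
    have et' : t' = 1 := t_one (fun t => S.num (c (a.succAbove t))) h1' ht'
    set sc : Fin (g (c a)) × Bool → W.K := fun x => (sgn (⟨c a, x⟩ : J g) : W.K) with hsc
    set p : Fin (g (c a)) × Bool → W.H (P (c a)).X :=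
      fun x => ((bh b ⟨c a, x⟩ (c a) : transcendental W (P (c a)).X) : W.H (P (c a)).X) with hp
    set q : Fin (g (c a)) × Bool → W.H (P (c (a.succAbove b'))).X :=
      fun x => ((bh b (star ⟨c a, x⟩) (c (a.succAbove b')) :
        transcendental W (P (c (a.succAbove b'))).X) : W.H (P (c (a.succAbove b'))).X) with hq
    have hpo : ∀ x, OddC W (p x) := fun x => ⟨_, S.odd _, S.mid _ (bh b ⟨c a, x⟩ (c a)).2⟩
    have hqo : ∀ x, OddC W (q x) := fun x =>
      ⟨_, S.odd _, S.mid _ (bh b (star ⟨c a, x⟩) (c (a.succAbove b'))).2⟩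
    set θ := th W Z (Q := fun t => P (c t)) a b' sc p q with hθ
    -- the class is algebraic
    have hθA : AS W _ θ := by
      have h2 := theta_AS (Y := VV ops Z (n + 2) fun t => P (c t)) (S.num (c a)) (S.odd (c a))
        (S.mid (c a)) (e := fun x => ((b (c a) x : transcendental W (P (c a)).X) :
          W.H (P (c a)).X)) (fun x => (b (c a) x).2)
        (fun x y => by rw [← FL.bf_apply, hb]) (by
          intro y hy
          have h3 : (⟨y, hy⟩ : transcendental W (P (c a)).X) ∈
            Submodule.span W.K (Set.range (b (c a))) := by rw [(b (c a)).span_eq]; trivial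
          have h4 := Submodule.mem_map_of_mem (f := (transcendental W (P (c a)).X).subtype) h3
          rw [Submodule.map_span, ← Set.range_comp] at h4
          exact h4)
        (pj ops Z (n + 2) (fun t => P (c t)) a)
        (hc ▸ pj ops Z (n + 2) (fun t => P (c t)) (a.succAbove b'))
      convert h2 using 1
      rw [hθ, th]
      refine Finset.sum_congr rfl fun x _ => ?_
      have e1 : pi' W Z (Q := fun t => P (c t)) a (p x) =
          W.map (pj ops Z (n + 2) (fun t => P (c t)) a) ((b (c a) x :
            transcendental W (P (c a)).X) : W.H (P (c a)).X) := by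
        rw [hp, pi']
        beta_reduce
        rw [bh, Pi.single_eq_same]
      have e2 : pi' W Z (Q := fun t => P (c t)) (a.succAbove b') (q x) =
          W.map (hc ▸ pj ops Z (n + 2) (fun t => P (c t)) (a.succAbove b')) ((b (c a) (st x) :
            transcendental W (P (c a)).X) : W.H (P (c a)).X) := by
        rw [hq, pi']
        beta_reduce
        rw [map_heq hc.symm, bh]
        have h5 : (Pi.single (star (⟨c a, x⟩ : J g)).1
            (b (star (⟨c a, x⟩ : J g)).1 (star (⟨c a, x⟩ : J g)).2) :
            ∀ i, transcendental W (P i).X) (c a) = b (c a) (st x) := Pi.single_eq_same _ _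
        rw [h5]
      rw [e1, e2]
      rfl
    have e0 : (P (c (a.succAbove b'))).X.dim = (P (c a)).X.dim := by rw [hc]
    refine ⟨n, fun t => c (a.succAbove (b'.succAbove t)), rr ops Z (fun t => P (c t)) a b', θ,
      -(2 * (g (c a) : ℚ) * (t * t'))⁻¹, (P (c a)).X.dim, by omega, hθA, ?_, ?_, ?_, ?_, ?_⟩
    · rw [hθ, th]
      refine Submodule.sum_mem _ fun x _ => Submodule.smul_mem _ _ ?_
      have h2 := W.mul_mem (W.map_mem (pj ops Z (n + 2) (fun t => P (c t)) a)
        (S.mid _ (bh b ⟨c a, x⟩ (c a)).2))
        (W.map_mem (pj ops Z (n + 2) (fun t => P (c t)) (a.succAbove b'))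
        (S.mid _ (bh b (star ⟨c a, x⟩) (c (a.succAbove b'))).2))
      rw [e0, ← two_mul] at h2
      exact h2
    · have h4 := dim_VV_succ (ops := ops) (Z := Z) (Q := fun t => P (c t)) a
      have h5 := dim_VV_succ (ops := ops) (Z := Z) (Q := fun t => P (c (a.succAbove t))) b'
      rw [h4, h5, e0]
      ring
    · rw [(S.odd (c a)).neg_one_pow, et, et']
      have h0 : (0 : ℚ) ≤ (2 * (g (c a) : ℚ) * (1 * 1))⁻¹ := by positivity
      linarith
    · intro x
      refine contr_L S.cycZ (fun t => S.cyc (c t)) (fun x => ?_) (fun x => ?_) x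
      · exact div_trans (S.cyc _) (S.mid _) (bh b ⟨c a, x⟩ (c a)).2
      · exact div_trans (S.cyc _) (S.mid _) (bh b (star ⟨c a, x⟩) (c (a.succAbove b'))).2
    · intro h
      funext r
      have hne : a ≠ a.succAbove b' := (Fin.succAbove_ne a b').symm
      have key := KO_coord (W := W) (Z := Z) (Q := fun t => P (c t)) (a := a) (b := b')
        (sc := sc) (p := p) (q := q) ht ht' hpo hqo (x := ev c fun s => bh b (r s))
        (S.ev_odd c _) (X := fun y => ev c fun s => bh b (update (update r a ⟨c a, y⟩)
          (a.succAbove b') (star ⟨c a, y⟩) s)) (fun y => S.ev_odd c _)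
        (fun y => by rw [FL.ev, update_of_ne hne, update_self])
        (fun y => by rw [FL.ev, update_self])
        (fun y t => by
          rw [FL.ev, FL.ev, update_of_ne, update_of_ne]
          · exact Fin.succAbove_ne a _
          · exact fun h => Fin.succAbove_ne b' t (Fin.succAbove_right_injective h)) h
      rw [map_smul, Pi.smul_apply, cd_apply, ← KO_apply, key]
      have hcoef := coef_eq (b := b) hb hc (r a) (r (a.succAbove b'))
      have h2 : ∑ i, sc i * (W.tr (P (c a)).X (p i * ev c (fun s => bh b (r s)) a) *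
          W.tr (P (c (a.succAbove b'))).X (q i * ev c (fun s => bh b (r s)) (a.succAbove b'))) =
          if (r a).1 = c a ∧ r (a.succAbove b') = star (r a) then (sgn (r a) : W.K) else 0 := by
        rw [← hcoef]
        refine Finset.sum_congr rfl fun x _ => ?_
        rw [FL.bf_apply, FL.bf_apply]
        rfl
      rw [h2]
      have h3 : ∀ i, W.push (pz ops Z (n + 2) fun t => P (c t)) (h * lp W Z
          (ev c fun s => bh b (update (update r a ⟨c a, i⟩)
            (a.succAbove b') (star ⟨c a, i⟩) s))) = cd b c h (update (update r a ⟨c a, i⟩)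
              (a.succAbove b') (star ⟨c a, i⟩)) := fun i => (cd_apply _ _ _ _).symm
      rw [Finset.sum_congr rfl fun i _ => congrArg (fun z => sc i • z) (h3 i)]
      by_cases hra : (r a).1 = c a
      · obtain ⟨x0, hx0⟩ : ∃ x0, r a = (⟨c a, x0⟩ : J g) := by
          rw [← hra]
          exact ⟨(r a).2, rfl⟩
        rw [mv_KK' a (a.succAbove b') _ hx0]
        by_cases hrb : r (a.succAbove b') = star (r a)
        · rw [if_pos ⟨hra, hrb⟩, if_pos hrb, smul_smul, Finset.smul_sum]
          refine Finset.sum_congr rfl fun y _ => ?_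
          rw [smul_smul]
          congr 1
          have hg : (g (c a) : W.K) ≠ 0 := by
            have : g (c a) ≠ 0 := by
              intro h0
              have := y.1.2
              omega
            exact_mod_cast this
          have hT : (t : W.K) ≠ 0 := by exact_mod_cast ht0
          have hT' : (t' : W.K) ≠ 0 := by exact_mod_cast ht0'
          rw [hsc]
          push_cast
          field_simp
        · rw [if_neg fun h => hrb h.2, if_neg hrb, mul_zero, zero_smul, smul_zero]
      · rw [if_neg fun h => hra h.1, mul_zero, zero_smul, smul_zero, mv_KK]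
        split_ifs
        · symm
          refine Finset.sum_eq_zero fun x _ => ?_
          rw [cd_supp b c h ⟨a, ?_⟩, smul_zero]
          rw [qq, update_of_ne hne, update_self]
          exact hra
        · rfl


end Pool.Agent.H88.HT
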