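import Pool.Agent.H88.FL.Mat
import Pool.Agent.H88.L.W552.RatBasis

/-!
# Positivity of a rational form for which an operator with positive eigenvalues is positive
-/

open Finset Matrix

set_option linter.unusedSectionVars false

universe u v

namespace Pool.Agent.H88.HT

open Pool.Agent.H88.FL Pool.Agent.W552

section real

variable {I : Type} [Fintype I] [DecidableEq I]

theorem aeval_mulVec {A : Matrix I I ℝ} {v : I → ℝ} {μ : ℝ} (h : A *ᵥ v = μ • v)
    (p : Polynomial ℝ) : Polynomial.aeval A p *ᵥ v = p.eval μ • v := by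
  induction p using Polynomial.induction_on' with
  | add p q hp hq => rw [map_add, Matrix.add_mulVec, hp, hq, Polynomial.eval_add, add_smul]
  | monomial n a =>
    rw [Polynomial.aeval_monomial, Polynomial.eval_monomial, Algebra.algebraMap_eq_smul_one,
      smul_mul_assoc, one_mul, Matrix.smul_mulVec, mul_smul]
    congr 1
    induction n with
    | zero => simp
    | succ n ih => rw [pow_succ, ← Matrix.mulVec_mulVec, h, Matrix.mulVec_smul, ih, pow_succ',
        mul_smul]

/-- **A matrix which is self-adjoint for a positive diagonal form and has nonnegative roots.** -/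
theorem form_nonneg {w : I → ℝ} (hw : ∀ i, 0 < w i) {A : Matrix I I ℝ}
    (hA : ∀ i j, w i * A i j = w j * A j i) {p : Polynomial ℝ} (hp : Polynomial.aeval A p = 0)
    (hroot : ∀ μ, p.IsRoot μ → 0 ≤ μ) (c : I → ℝ) :
    0 ≤ ∑ i, w i * c i * (A *ᵥ c) i ∧ (∑ i, w i * c i * (A *ᵥ c) i = 0 → A *ᵥ c = 0) := by
  set d : I → ℝ := fun i => Real.sqrt (w i) with hd
  have hd0 : ∀ i, 0 < d i := fun i => Real.sqrt_pos.2 (hw i)
  have hdd : ∀ i, d i * d i = w i := fun i => Real.mul_self_sqrt (hw i).le
  set S : Matrix I I ℝ := Matrix.of fun i j => d i * A i j / d j with hS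
  have hSA : ∀ (v : I → ℝ) i, (S *ᵥ fun j => d j * v j) i = d i * (A *ᵥ v) i := by
    intro v i
    rw [mulVec, mulVec, dotProduct, dotProduct, Finset.mul_sum]
    refine Finset.sum_congr rfl fun j _ => ?_
    rw [hS, Matrix.of_apply]
    have := (hd0 j).ne'
    field_simp
  have hherm : S.IsHermitian := by
    ext i j
    rw [Matrix.conjTranspose_apply, star_trivial, hS, Matrix.of_apply, Matrix.of_apply]
    have h1 := (hd0 j).ne'
    have h2 := (hd0 i).ne'
    rw [div_eq_div_iff h2 h1]
    have h3 := hA i j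
    rw [← hdd, ← hdd] at h3
    linear_combination -h3
  have hpsd : S.PosSemidef := by
    rw [hherm.posSemidef_iff_eigenvalues_nonneg]
    intro j
    apply hroot
    set v : I → ℝ := ⇑(hherm.eigenvectorBasis j) with hv
    have h1 : S *ᵥ v = hherm.eigenvalues j • v := hherm.mulVec_eigenvectorBasis j
    have hv0 : v ≠ 0 := by
      intro h0
      have h2 := hherm.eigenvectorBasis.orthonormal.ne_zero j
      apply h2
      ext i
      exact congrFun h0 i
    set u : I → ℝ := fun i => v i / d i with hu
    have hvu : v = fun i => d i * u i := by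
      funext i
      rw [hu]
      have := (hd0 i).ne'
      field_simp
    have h2 : A *ᵥ u = hherm.eigenvalues j • u := by
      funext i
      have h3 := congrFun h1 i
      rw [hvu, hSA, Pi.smul_apply, smul_eq_mul] at h3
      rw [Pi.smul_apply, smul_eq_mul]
      have := (hd0 i).ne'
      apply mul_left_cancel₀ this
      linear_combination h3
    have hu0 : u ≠ 0 := by
      intro h0
      apply hv0
      rw [hvu, h0]
      funext i
      simp
    have h3 := aeval_mulVec h2 p
    rw [hp, Matrix.zero_mulVec] at h3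
    rcases smul_eq_zero.1 h3.symm with h4 | h4
    · exact h4
    · exact absurd h4 hu0
  have hsum : ∑ i, w i * c i * (A *ᵥ c) i =
      (fun j => d j * c j) ⬝ᵥ (S *ᵥ fun j => d j * c j) := by
    rw [dotProduct]
    refine Finset.sum_congr rfl fun i _ => ?_
    rw [hSA, ← hdd]
    ring
  constructor
  · rw [hsum]
    have h1 := hpsd.dotProduct_mulVec_nonneg (fun j => d j * c j)
    simpa using h1
  · intro h0
    rw [hsum] at h0
    have h1 := (hpsd.dotProduct_mulVec_zero_iff (fun j => d j * c j)).1 (by simpa using h0)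
    funext i
    have h2 := congrFun h1 i
    rw [hSA, Pi.zero_apply] at h2
    exact (mul_eq_zero.1 h2).resolve_left (hd0 i).ne'

end real

variable {K : Type u} [Field K] [CharZero K] {V : Type v} [AddCommGroup V] [Module K V]
  [Module.Finite K V]

/-- **Positivity.** -/
theorem pos_of_roots {M : V → Prop} (hM : RatSub K M) (β : V →ₗ[K] V →ₗ[K] K)
    (hsymm : ∀ x y, M x → M y → β x y = β y x)
    (hrat : ∀ x y, M x → M y → ∃ q : ℚ, β x y = q)
    {T : Module.End K V} (hT : ∀ x, M x → M (T x))
    (hself : ∀ x y, M x → M y → β (T x) y = β x (T y))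
    (hpos : ∀ x, M x → x ≠ 0 → ∃ q : ℚ, 0 < q ∧ β (T x) x = q)
    {r : Polynomial ℚ} (hr : ∀ μ : ℝ, (r.map (algebraMap ℚ ℝ)).IsRoot μ → 0 ≤ μ)
    (hrT : ∀ x, M x → pe r T x = 0) {x : V} (hx : M x) (hx0 : x ≠ 0) :
    ∃ q : ℚ, 0 < q ∧ β x x = q := by
  obtain ⟨N, e, w, he, hw, hew, hsp⟩ := exists_ratBasis hM (β ∘ₗ T)
    (fun x y hx hy => hrat _ _ (hT x hx) hy)
    (fun x y hx hy => by
      change β (T x) y = β (T y) x
      rw [hself x y hx hy, hsymm _ _ hx (hT y hy)]) hpos
  have hew' : ∀ i j, β (T (e i)) (e j) = if i = j then (w i : K) else 0 := hew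
  have hw0 : ∀ i, (w i : K) ≠ 0 := fun i => by exact_mod_cast (hw i).ne'
  set φ : (Fin N → ℚ) → V := fun c => ∑ i, (c i : K) • e i with hφ
  have hφM : ∀ c, M (φ c) := fun c => hM.sum _ fun i _ => hM.smul _ (he i)
  have hφe : ∀ x, M x → ∃ c, x = φ c := by
    intro x hx
    exact hsp x (Submodule.subset_span hx) fun k => hrat _ _ (hT x hx) (he k)
  have hφβ : ∀ c j, β (T (φ c)) (e j) = ((c j * w j : ℚ) : K) := by
    intro c j
    rw [hφ]
    simp only [map_sum, map_smul, LinearMap.sum_apply, LinearMap.smul_apply, hew', smul_eq_mul]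
    rw [Finset.sum_eq_single j]
    · rw [if_pos rfl]
      push_cast
      rfl
    · intro i _ hij
      rw [if_neg hij, mul_zero]
    · intro h0
      exact absurd (Finset.mem_univ _) h0
  have hφinj : ∀ c, φ c = 0 → c = 0 := by
    intro c hc
    funext j
    have h1 := hφβ c j
    rw [hc, map_zero, map_zero, LinearMap.zero_apply] at h1
    have h2 : (c j * w j : ℚ) = 0 := by exact_mod_cast h1.symm
    exact (mul_eq_zero.1 h2).resolve_right (hw j).ne'
  choose a ha using fun j => hφe _ (hT _ (he j))
  set A : Matrix (Fin N) (Fin N) ℚ := Matrix.of fun i j => a j i with hA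
  have hTφ : ∀ c, T (φ c) = φ (A *ᵥ c) := by
    intro c
    rw [hφ]
    simp only [map_sum, map_smul, ha]
    rw [hφ]
    simp only [Finset.smul_sum, smul_smul]
    rw [Finset.sum_comm]
    refine Finset.sum_congr rfl fun i _ => ?_
    rw [← Finset.sum_smul, mulVec, dotProduct]
    congr 1
    push_cast
    refine Finset.sum_congr rfl fun j _ => ?_
    rw [hA, Matrix.of_apply]
    ring
  have hφadd : ∀ c d, φ (c + d) = φ c + φ d := by
    intro c d
    rw [hφ]
    simp only [Pi.add_apply, Rat.cast_add, add_smul, Finset.sum_add_distrib]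
  have hφsmul : ∀ (q : ℚ) c, φ (q • c) = (q : K) • φ c := by
    intro q c
    rw [hφ]
    simp only [Pi.smul_apply, smul_eq_mul, Rat.cast_mul, mul_smul, Finset.smul_sum]
  have hpe : ∀ p : Polynomial ℚ, ∀ c, pe p T (φ c) = φ (Polynomial.aeval A p *ᵥ c) := by
    intro p
    induction p using Polynomial.induction_on' with
    | add p q hp hq =>
      intro c
      rw [pe, Polynomial.map_add, map_add, LinearMap.add_apply, map_add, Matrix.add_mulVec,
        hφadd, ← hp, ← hq]
      rfl
    | monomial n q =>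
      intro c
      rw [pe, Polynomial.map_monomial, Polynomial.aeval_monomial, Polynomial.aeval_monomial,
        Module.End.mul_apply, Module.algebraMap_end_apply, ← Algebra.smul_def,
        Matrix.smul_mulVec, hφsmul, eq_ratCast]
      congr 1
      induction n with
      | zero => simp
      | succ n ih => rw [pow_succ', Module.End.mul_apply, ih, hTφ, pow_succ', mulVec_mulVec]
  have hrA : Polynomial.aeval A r = 0 := by
    have h1 : ∀ c, Polynomial.aeval A r *ᵥ c = 0 := fun c =>
      hφinj _ (by rw [← hpe, hrT _ (hφM c)])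
    ext i j
    have h2 := congrFun (h1 (Pi.single j 1)) i
    rw [Matrix.mulVec_single_one, Matrix.col_apply] at h2
    exact h2
  have hAw : ∀ i j, w i * A i j = w j * A j i := by
    intro i j
    have h1 : β (T (T (e j))) (e i) = ((a j i * w i : ℚ) : K) := by
      conv_lhs => rw [ha j]
      exact hφβ _ _
    have h2 : β (T (T (e i))) (e j) = ((a i j * w j : ℚ) : K) := by
      conv_lhs => rw [ha i]
      exact hφβ _ _
    have h3 : β (T (T (e j))) (e i) = β (T (T (e i))) (e j) := by
      rw [hself _ _ (hT _ (he j)) (he i), hself _ _ (hT _ (he i)) (he j),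
        hsymm _ _ (hT _ (he j)) (hT _ (he i))]
    rw [h1, h2] at h3
    have h4 : a j i * w i = a i j * w j := by exact_mod_cast h3
    rw [hA, Matrix.of_apply, Matrix.of_apply]
    linear_combination h4
  -- `A` is injective
  have hAinj : ∀ c, A *ᵥ c = 0 → c = 0 := by
    intro c hc
    by_contra h0
    obtain ⟨q, hq, hq'⟩ := hpos (φ c) (hφM c) fun h => h0 (hφinj c h)
    rw [hTφ, hc] at hq'
    have h1 : φ 0 = 0 := by
      rw [hφ]
      simp
    rw [h1, map_zero, LinearMap.zero_apply] at hq'
    have : q = 0 := by exact_mod_cast hq'.symm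
    exact hq.ne' this
  obtain ⟨c, rfl⟩ := hφe x hx
  have hunit : IsUnit A := by
    rw [← Matrix.mulVec_injective_iff_isUnit]
    intro c d hcd
    have h1 : A *ᵥ (c - d) = 0 := by
      rw [Matrix.mulVec_sub, sub_eq_zero]
      exact hcd
    exact sub_eq_zero.1 (hAinj _ h1)
  obtain ⟨y, hy⟩ := (Matrix.mulVec_surjective_iff_isUnit.2 hunit) c
  have hβ : β (φ c) (φ c) = ((∑ i, w i * y i * (A *ᵥ y) i : ℚ) : K) := by
    have h1 : φ c = T (φ y) := by rw [hTφ]; exact congrArg φ hy.symm
    have h2 : β (T (φ y)) (φ c) = ∑ j, (c j : K) * ((y j * w j : ℚ) : K) := by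
      conv_lhs => rw [hφ]
      rw [map_sum]
      refine Finset.sum_congr rfl fun j _ => ?_
      rw [map_smul, smul_eq_mul]
      congr 1
      exact hφβ y j
    rw [← h1] at h2
    rw [h2]
    push_cast
    refine Finset.sum_congr rfl fun j _ => ?_
    have h3 : (A *ᵥ y) j = c j := congrFun hy j
    rw [h3]
    ring
  refine ⟨_, ?_, hβ⟩
  -- over the real numbers
  have hmap : ∀ v : Fin N → ℚ, (A.map (algebraMap ℚ ℝ)) *ᵥ (fun i => (v i : ℝ)) =
      fun i => (((A *ᵥ v) i : ℚ) : ℝ) := by
    intro v
    funext i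
    rw [mulVec, mulVec, dotProduct, dotProduct]
    push_cast
    rfl
  have key := form_nonneg (w := fun i => (w i : ℝ)) (A := A.map (algebraMap ℚ ℝ))
    (fun i => by exact_mod_cast hw i) (fun i j => by
      have := hAw i j
      simp only [Matrix.map_apply, eq_ratCast]
      exact_mod_cast this) (p := r.map (algebraMap ℚ ℝ)) (by
      have h1 : Polynomial.aeval (A.map (algebraMap ℚ ℝ)) r =
          (Polynomial.aeval A r).map (algebraMap ℚ ℝ) := by
        have h2 := Polynomial.aeval_algHom_apply ((Algebra.ofId ℚ ℝ).mapMatrix (m := Fin N)) A r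
        exact h2
      rw [Polynomial.aeval_map_algebraMap, h1, hrA]
      ext i j
      simp) hr (fun i => (y i : ℝ))
  rw [hmap] at key
  obtain ⟨key1, key2⟩ := key
  beta_reduce at key1 key2
  have h1 : (0 : ℚ) ≤ ∑ i, w i * y i * (A *ᵥ y) i := by exact_mod_cast key1
  refine lt_of_le_of_ne h1 fun h0 => hx0 ?_
  have h2 := key2 (by exact_mod_cast h0.symm)
  have h3 : A *ᵥ y = 0 := by
    funext i
    have h4 := congrFun h2 i
    rw [Pi.zero_apply] at h4 ⊢
    exact_mod_cast h4
  have h4 : c = 0 := by rw [← hy]; exact h3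
  rw [h4, hφ]
  simp

end Pool.Agent.H88.HT
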