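import Pool.Agent.H88.HT.Form2
import Pool.Agent.H88.FL.Geo10

/-!
# The Hodge form of a product and a factor
-/

open CategoryTheory AlgebraicGeometry

set_option linter.unusedSectionVars false

universe u v w

namespace Pool.Agent.H88.HT

open Pool.Agent.H914 Pool.Agent.H914.VarClass Pool.Agent.H914.VarClass.Obj
  Pool.Agent.H914.WeilCohomology Pool.Agent.H281R3.HT Pool.Agent.TH132.A
open Pool.Agent.W552 (AS)
open Pool.Agent.H88.FL hiding bf bf_apply st sg

variable {k : Type u} [Field k] {𝒱 : VarClass k} {ops : CycleOps 𝒱}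
  {W : WeilCohomology.{u, v} ops} {Z : Polarized 𝒱}

/-- the trace of a monomial -/
theorem tr_mono {n : ℕ} : ∀ {Q : Fin n → Polarized 𝒱} (x : ∀ s, W.H (Q s).X) (z : W.H Z.X),
    W.tr (VV ops Z n Q) (lp W Z x * W.map (pz ops Z n Q) z) =
      (∏ s, W.tr (Q s).X (x s)) * W.tr Z.X z := by
  induction n with
  | zero =>
    intro Q x z
    rw [mono_zero, Fin.prod_univ_zero, one_mul]
    rfl
  | succ n ih =>
    intro Q x z
    rw [mono_succ]
    have h1 := W.tr_prod (X := (Q 0).X) (Y := VV ops Z n fun t => Q t.succ) (x 0)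
      (lp W Z (fun t => x t.succ) * W.map (pz ops Z n fun t => Q t.succ) z)
    refine h1.trans ?_
    rw [ih, Fin.prod_univ_succ, mul_assoc]

theorem exists_AS_tr {X : 𝒱.Obj} (hX : HomEqNum W X) (h1 : (1 : W.H X) ≠ 0) :
    ∃ p, AS W X p ∧ W.tr X p ≠ 0 := by
  by_contra h0
  push Not at h0
  exact h1 (AS_zero_of_pair hX AS.one fun y hy => by rw [one_mul]; exact h0 y hy)

theorem exists_tr {X : 𝒱.Obj} (h1 : (1 : W.H X) ≠ 0) : ∃ p, W.tr X p ≠ 0 := by
  by_contra h0
  push Not at h0
  exact h1 (W.nondeg 1 fun y => by rw [one_mul]; exact h0 y)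

theorem one_ne_pj {n : ℕ} {Q : Fin n → Polarized 𝒱} (h1 : (1 : W.H (VV ops Z n Q)) ≠ 0)
    (s : Fin n) : (1 : W.H (Q s).X) ≠ 0 := by
  intro h0
  apply h1
  rw [← map_one (W.map (pj ops Z n Q s)), h0, map_zero]

theorem one_ne_pz {n : ℕ} {Q : Fin n → Polarized 𝒱} (h1 : (1 : W.H (VV ops Z n Q)) ≠ 0) :
    (1 : W.H Z.X) ≠ 0 := by
  intro h0
  apply h1
  rw [← map_one (W.map (pz ops Z n Q)), h0, map_zero]

section slot

variable {n : ℕ} {Q : Fin (n + 1) → Polarized 𝒱} {s : Fin (n + 1)}

/-- The constant is one. -/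
theorem t_one (hQ : ∀ t, HomEqNum W (Q t).X) (h1 : (1 : W.H (VV ops Z (n + 1) Q)) ≠ 0) {t : ℚ}
    (ht : ∀ x, W.push (rem ops Z Q s) (pi' W Z s x) = ((t : W.K) * W.tr (Q s).X x) • 1) :
    t = 1 := by
  obtain ⟨σ, hσ⟩ := lp_front (W := W) (Z := Z) (Q := Q) (fun _ => false) s
  have hσ1 : (σ : ℤ) = 1 := by
    have h2 := hσ (fun _ => 1) fun t => ⟨fun h => by simp at h, fun _ => AS_span AS.one⟩
    have h3 : lp W Z (Q := Q) (fun _ => 1) = 1 := by
      rw [FL.lp]
      refine List.prod_eq_one ?_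
      intro x hx
      obtain ⟨s, -, rfl⟩ := List.mem_map.1 hx
      exact map_one _
    have h4 : lp W Z (Q := fun t => Q (s.succAbove t)) (fun _ => 1) = 1 := by
      rw [FL.lp]
      refine List.prod_eq_one ?_
      intro x hx
      obtain ⟨s, -, rfl⟩ := List.mem_map.1 hx
      exact map_one _
    have h5 : pi' W Z (Q := Q) s 1 = 1 := map_one _
    rw [h3, h4, h5, map_one, mul_one] at h2
    rcases Int.units_eq_one_or σ with rfl | rfl
    · rfl
    · exfalso
      rw [Units.val_neg, Units.val_one, neg_one_smul] at h2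
      have h6 : (2 : W.K) • (1 : W.H (VV ops Z (n + 1) Q)) = 0 := by
        rw [two_smul]
        nth_rewrite 1 [h2]
        exact neg_add_cancel _
      exact h1 ((smul_eq_zero.1 h6).resolve_left two_ne_zero)
  choose p hp hp0 using fun t => exists_AS_tr (hQ t) (one_ne_pj h1 t)
  obtain ⟨z, hz⟩ := exists_tr (one_ne_pz h1)
  have h2 := hσ p fun t => ⟨fun h => by simp at h, fun _ => AS_span (hp t)⟩
  rw [hσ1, one_zsmul] at h2
  have h3 := tr_mono (W := W) (Z := Z) p z
  rw [h2, mul_assoc, ← rem_pz s, ← map_mul] at h3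
  have h4 : W.tr (VV ops Z (n + 1) Q) (pi' W Z s (p s) * W.map (rem ops Z Q s)
      (lp W Z (fun t => p (s.succAbove t)) * W.map (pz ops Z n fun t => Q (s.succAbove t)) z)) =
      (t : W.K) * W.tr (Q s).X (p s) * ((∏ t, W.tr (Q (s.succAbove t)).X (p (s.succAbove t))) *
        W.tr Z.X z) := by
    rw [← W.tr_push, ht, smul_mul_assoc, one_mul, map_smul, tr_mono, smul_eq_mul]
  rw [h4, Fin.prod_univ_succAbove _ s] at h3
  have h5 : (∏ t, W.tr (Q (s.succAbove t)).X (p (s.succAbove t))) ≠ 0 :=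
    Finset.prod_ne_zero_iff.2 fun t _ => hp0 _
  have h6 : (t : W.K) = 1 := by
    have h7 : (W.tr (Q s).X (p s) * ((∏ t, W.tr (Q (s.succAbove t)).X (p (s.succAbove t))) *
        W.tr Z.X z)) ≠ 0 := mul_ne_zero (hp0 s) (mul_ne_zero h5 hz)
    refine mul_right_cancel₀ h7 ?_
    rw [one_mul]
    linear_combination h3
  exact_mod_cast h6

variable (ht : ∀ x, W.push (rem ops Z Q s) (pi' W Z s x) = W.tr (Q s).X x • 1)

include ht

theorem rem_push_one (x : W.H (Q s).X) (y : W.H (VV ops Z n fun t => Q (s.succAbove t))) :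
    W.push (rem ops Z Q s) (pi' W Z s x * W.map (rem ops Z Q s) y) = W.tr (Q s).X x • y := by
  rw [W.push_mul, ht, smul_mul_assoc, one_mul]

/-- the trace and the splitting -/
theorem tr_spl (c : W.H ((Q s).X.prod (VV ops Z n (fun t => Q (s.succAbove t))))) :
    W.tr _ (W.map (spl ops Z Q s) c) = W.tr _ c := by
  have h : W.tr (VV ops Z (n + 1) Q) ∘ₗ (W.map (spl ops Z Q s)).toLinearMap = W.tr _ := by
    apply ext_kunneth_lin
    intro a b
    change W.tr _ (W.map (spl ops Z Q s) _) = _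
    rw [spl_tmul, ← W.tr_push, ht, smul_mul_assoc, one_mul, map_smul, W.tr_prod, smul_eq_mul]
  exact congrArg (fun L => L c) h

variable {F : Module.End W.K (W.H (VV ops Z (n + 1) Q))}
    (tF : Low W (VV ops Z (n + 1) Q) (mixProd ops Z (n + 1) Q).D F)
    {f : Module.End W.K (W.H (Q s).X)} (tf : Low W (Q s).X (Q s).D f)
    {F' : Module.End W.K (W.H (VV ops Z n fun t => Q (s.succAbove t)))}
    (tF' : Low W (VV ops Z n fun t => Q (s.succAbove t))
      (mixProd ops Z n fun t => Q (s.succAbove t)).D F')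
    (hE : (VV ops Z n fun t => Q (s.succAbove t)).IsCyc 1
      (mixProd ops Z n fun t => Q (s.succAbove t)).D)

include tF tf tF' hE

omit ht in
theorem low_split : Low W ((Q s).X.prod (VV ops Z n fun t => Q (s.succAbove t)))
    (ops.pull (fst _ _) (Q s).D + ops.pull (snd _ _) (mixProd ops Z n fun t => Q (s.succAbove t)).D)
    (extSum W f F') := by
  have h1 := wt_prod (W := W) (Q s).X (VV ops Z n fun t => Q (s.succAbove t))
  rw [Low, mulLeft_prod hE, h1]
  exact sl2_prod tf tF'

/-- the form and the splitting -/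
theorem bf_spl (a b : W.H ((Q s).X.prod (VV ops Z n (fun t => Q (s.succAbove t))))) :
    W552.bf W _ (mixProd ops Z (n + 1) Q).D F (W.map (spl ops Z Q s) a)
      (W.map (spl ops Z Q s) b) = W552.bf W _ (ops.pull (fst _ _) (Q s).D +
        ops.pull (snd _ _) (mixProd ops Z n fun t => Q (s.succAbove t)).D) (extSum W f F') a b := by
  have hst : W552.st W _ (mixProd ops Z (n + 1) Q).D F (W.map (spl ops Z Q s) b) =
      W.map (spl ops Z Q s) (W552.st W _ (ops.pull (fst _ _) (Q s).D +
        ops.pull (snd _ _) (mixProd ops Z n fun t => Q (s.succAbove t)).D)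
          (extSum W f F') b) := by
    have hwt : ∀ x, (W.map (spl ops Z Q s)).toLinearMap
        (wt (W.isInternal ((Q s).X.prod (VV ops Z n (fun t => Q (s.succAbove t)))))
        ((Q s).X.prod (VV ops Z n (fun t => Q (s.succAbove t)))).dim x) =
        wt (W.isInternal (VV ops Z (n + 1) Q)) (VV ops Z (n + 1) Q).dim
          ((W.map (spl ops Z Q s)).toLinearMap x) := by
      intro x
      rw [← cj_wt s]
      exact (cj_apply s _ x).symm
    have hL : ∀ x, (W.map (spl ops Z Q s)).toLinearMap (LinearMap.mulLeft W.K (W.cl _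
        (ops.pull (fst _ _) (Q s).D + ops.pull (snd _ _)
          (mixProd ops Z n fun t => Q (s.succAbove t)).D)) x) =
        LinearMap.mulLeft W.K (W.cl _ (mixProd ops Z (n + 1) Q).D)
          ((W.map (spl ops Z Q s)).toLinearMap x) := by
      intro x
      have e1 : spl ops Z Q s ≫ fst _ _ = pj ops Z (n + 1) Q s := Obj.lift_fst _ _
      have e2 : spl ops Z Q s ≫ snd _ _ = rem ops Z Q s := Obj.lift_snd _ _
      change W.map (spl ops Z Q s) (_ * x) = _ * W.map (spl ops Z Q s) x
      rw [map_mul, rem_D s]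
      congr 1
      rw [map_add, W.cl_pull, W.cl_pull, map_add, ← W.map_comp, ← W.map_comp, e1, e2]
      rfl
    have hw := comm_wey (low_split (s := s) tF tf tF' hE) tF hwt hL
    refine gr_induction (W.isInternal _) (p := fun b =>
      W552.st W _ (mixProd ops Z (n + 1) Q).D F (W.map (spl ops Z Q s) b) =
      W.map (spl ops Z Q s) (W552.st W _ (ops.pull (fst _ _) (Q s).D +
        ops.pull (snd _ _) (mixProd ops Z n fun t => Q (s.succAbove t)).D)
          (extSum W f F') b)) ?_ ?_ b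
    · intro i b hb
      rw [W552.st_apply hb, W552.st_apply (W.map_mem _ hb), map_smul]
      congr 1
      exact (hw b).symm
    · intro a b ha hb
      rw [map_add, map_add, map_add, map_add, ha, hb]
  rw [W552.bf_apply, W552.bf_apply, hst, ← map_mul, tr_spl ht]

/-- **The form and the removal of a factor.** -/
theorem bf_slot (hD : (Q s).X.IsCyc 1 (Q s).D) {e : W.H (Q s).X} (he : AS W (Q s).X e)
    (y : W.H (VV ops Z n fun t => Q (s.succAbove t))) (x : W.H (VV ops Z (n + 1) Q)) :
    W552.bf W _ (mixProd ops Z (n + 1) Q).D F (pi' W Z s e * W.map (rem ops Z Q s) y) x =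
      W552.bf W _ (mixProd ops Z n fun t => Q (s.succAbove t)).D F' y
        (W.push (rem ops Z Q s) (pi' W Z s (W552.st W _ (Q s).D f e) * x)) := by
  have h : W552.bf W _ (mixProd ops Z (n + 1) Q).D F
      (pi' W Z s e * W.map (rem ops Z Q s) y) =
      W552.bf W _ (mixProd ops Z n fun t => Q (s.succAbove t)).D F' y ∘ₗ
        W.push (rem ops Z Q s) ∘ₗ
          LinearMap.mulLeft W.K (pi' W Z s (W552.st W _ (Q s).D f e)) := by
    apply rem_ext s
    intro a b
    change _ = W552.bf W _ (mixProd ops Z n fun t => Q (s.succAbove t)).D F' y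
      (W.push (rem ops Z Q s) (pi' W Z s (W552.st W _ (Q s).D f e) *
        (pi' W Z s a * W.map (rem ops Z Q s) b)))
    have h2 : pi' W Z s (W552.st W _ (Q s).D f e) * pi' W Z s a =
      pi' W Z s (W552.st W _ (Q s).D f e * a) := (map_mul _ _ _).symm
    rw [← mul_assoc, h2, rem_push_one ht, map_smul, smul_eq_mul, ← bf_star hD tf he,
      ← spl_tmul, ← spl_tmul, bf_spl ht tF tf tF' hE]
    exact bf_ext' tf tF' hE e a y b
  exact congrArg (fun L => L x) h

end slot

end Pool.Agent.H88.HT
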