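import Pool.Agent.H88.HT.Slot1

/-!
# The projector for a factor is positive
-/

open CategoryTheory AlgebraicGeometry

set_option linter.unusedSectionVars false

universe u v w

namespace Pool.Agent.H88.HT

open Pool.Agent.H914 Pool.Agent.H914.VarClass Pool.Agent.H914.VarClass.Obj
  Pool.Agent.H914.WeilCohomology Pool.Agent.H281R3.HT Pool.Agent.TH132.A
open Pool.Agent.W552 (AS RatSub)
open Pool.Agent.H88.FL hiding bf bf_apply st sg

variable {k : Type u} [Field k] {𝒱 : VarClass k} {ops : CycleOps 𝒱}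
  {W : WeilCohomology.{u, v} ops} {Z : Polarized 𝒱}

variable {n : ℕ}

/-- the form on the product -/
noncomputable abbrev bV (W : WeilCohomology.{u, v} ops) (Z : Polarized 𝒱) {n : ℕ}
    (Q : Fin n → Polarized 𝒱) (F : Module.End W.K (W.H (VV ops Z n Q))) :
    W.H (VV ops Z n Q) →ₗ[W.K] W.H (VV ops Z n Q) →ₗ[W.K] W.K :=
  W552.bf W (VV ops Z n Q) (mixProd ops Z n Q).D F

/-- the data for a slot with the positivity -/
structure HSlot (W : WeilCohomology.{u, v} ops) (Z : Polarized 𝒱) {n : ℕ}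
    (Q : Fin (n + 1) → Polarized 𝒱) (s : Fin (n + 1))
    (F : Module.End W.K (W.H (VV ops Z (n + 1) Q)))
    (F' : Module.End W.K (W.H (VV ops Z n fun t => Q (s.succAbove t)))) where
  /-- the slot -/
  S : Slot W Z Q s
  /-- the number of the operators -/
  N : ℕ
  /-- positive numbers -/
  w : Fin N → ℚ
  /-- operators -/
  U : Fin N → W.H (VV ops Z (n + 1) Q) →ₗ[W.K] W.H (VV ops Z n fun t => Q (s.succAbove t))
  w_pos : ∀ i, 0 < w i
  U_AS : ∀ i x, AS W _ x → AS W _ (U i x)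
  op_zero : ∀ x, (∀ i, U i x = 0) → S.op x = 0
  form : ∀ x y, bV W Z Q F (S.op x) y =
    ∑ i, (w i : W.K) * bV W Z (fun t => Q (s.succAbove t)) F' (U i x) (U i y)

theorem exists_hslot {Q : Fin (n + 1) → Polarized 𝒱} {s : Fin (n + 1)}
    {F : Module.End W.K (W.H (VV ops Z (n + 1) Q))}
    (tF : Low W (VV ops Z (n + 1) Q) (mixProd ops Z (n + 1) Q).D F)
    {f : Module.End W.K (W.H (Q s).X)} (tf : Low W (Q s).X (Q s).D f)
    {F' : Module.End W.K (W.H (VV ops Z n fun t => Q (s.succAbove t)))}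
    (tF' : Low W (VV ops Z n fun t => Q (s.succAbove t))
      (mixProd ops Z n fun t => Q (s.succAbove t)).D F')
    (hE : (VV ops Z n fun t => Q (s.succAbove t)).IsCyc 1
      (mixProd ops Z n fun t => Q (s.succAbove t)).D)
    (hD : (Q s).X.IsCyc 1 (Q s).D) (hf : Stable W _ f) (hA : LefschetzA W (Q s).X (Q s).D)
    (hH : HodgeType W (Q s).X (Q s).D) (hQ : ∀ t, HomEqNum W (Q t).X)
    (h1 : (1 : W.H (VV ops Z (n + 1) Q)) ≠ 0) : Nonempty (HSlot W Z Q s F F') := by
  obtain ⟨t, -, ht⟩ := exists_rem_push s h1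
  have ht1 := t_one hQ h1 ht
  have ht' : ∀ x, W.push (rem ops Z Q s) (pi' W Z s x) = W.tr (Q s).X x • 1 := by
    intro x
    rw [ht, ht1, Rat.cast_one, one_mul]
  obtain ⟨N, e, w, he, hw, hew, hsp⟩ := Pool.Agent.W552.exists_ratBasis
    (AS.ratSub (W := W) (X := (Q s).X)) (W552.bf W _ (Q s).D f)
    (fun x y hx hy => bf_rat' hD tf hf hx hy) (fun x y hx hy => bf_symm_AS hD tf hx hy)
    (fun x hx hx0 => bf_pos' hD tf hA hH hx hx0)
  have hw0 : ∀ i, (w i : W.K) ≠ 0 := fun i => by exact_mod_cast (hw i).ne'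
  have hdual : DualFam W (Q s).X e
      (fun i => (((w i)⁻¹ : ℚ) : W.K) • W552.st W _ (Q s).D f (e i)) := by
    refine ⟨he, fun i => (st_AS' hD tf hf (he i)).smul _, fun i j => ?_, fun x hx => ?_⟩
    · rw [mul_smul_comm, map_smul, ← W552.bf_apply, hew]
      by_cases hij : i = j
      · subst hij
        rw [if_pos rfl, if_pos rfl, smul_eq_mul, Rat.cast_inv, inv_mul_cancel₀ (hw0 i)]
      · rw [if_neg hij, if_neg hij, smul_zero]
    · obtain ⟨r, hr⟩ := hsp x (Submodule.subset_span hx)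
        fun k => bf_rat' hD tf hf hx (he k)
      rw [hr]
      exact Submodule.sum_mem _ fun i _ => Submodule.smul_mem _ _
        (Submodule.subset_span ⟨i, rfl⟩)
  set S : Slot W Z Q s := ⟨N, e, _, hdual, hQ s, 1, one_ne_zero, by
    intro x
    rw [ht', Rat.cast_one, one_mul]⟩ with hS
  set U : Fin N → W.H (VV ops Z (n + 1) Q) →ₗ[W.K] W.H (VV ops Z n fun t => Q (s.succAbove t)) :=
    fun i => W.push (rem ops Z Q s) ∘ₗ
      LinearMap.mulLeft W.K (pi' W Z s (W552.st W _ (Q s).D f (e i))) with hU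
  have hop : ∀ x, S.op x = ∑ i, (((w i)⁻¹ : ℚ) : W.K) •
      (pi' W Z s (e i) * W.map (rem ops Z Q s) (U i x)) := by
    intro x
    rw [Slot.op_apply]
    change (((1 : ℚ)⁻¹ : ℚ) : W.K) • ∑ i, pi' W Z s (e i) * W.map (rem ops Z Q s)
      (W.push (rem ops Z Q s) (pi' W Z s ((((w i)⁻¹ : ℚ) : W.K) •
        W552.st W _ (Q s).D f (e i)) * x)) = _
    rw [inv_one, Rat.cast_one, one_smul]
    refine Finset.sum_congr rfl fun i _ => ?_
    have h2 : pi' W Z s ((((w i)⁻¹ : ℚ) : W.K) • W552.st W _ (Q s).D f (e i)) =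
      (((w i)⁻¹ : ℚ) : W.K) • pi' W Z s (W552.st W _ (Q s).D f (e i)) := map_smul _ _ _
    rw [h2, smul_mul_assoc, map_smul, map_smul, mul_smul_comm]
    rfl
  refine ⟨⟨S, N, fun i => (w i)⁻¹, U, fun i => inv_pos.2 (hw i), ?_, ?_, ?_⟩⟩
  · intro i x hx
    exact (((st_AS' hD tf hf (he i)).map _).mul hx).push _
  · intro x hx
    rw [hop]
    refine Finset.sum_eq_zero fun i _ => ?_
    rw [hx, map_zero, mul_zero, smul_zero]
  · intro x y
    rw [hop, map_sum, LinearMap.sum_apply]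
    refine Finset.sum_congr rfl fun i _ => ?_
    rw [map_smul, LinearMap.smul_apply, smul_eq_mul, bV,
      bf_slot ht' tF tf tF' hE hD (he i)]
    rfl

end Pool.Agent.H88.HT
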