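import Pool.Agent.H88.HT.Pair2
import Pool.Agent.H88.HT.Pos

/-!
# Reduction to the totally transcendental classes
-/

open CategoryTheory AlgebraicGeometry Finset

set_option linter.unusedSectionVars false

universe u v w

namespace Pool.Agent.H88.HT

open Pool.Agent.H914 Pool.Agent.H914.VarClass Pool.Agent.H914.VarClass.Obj
  Pool.Agent.H914.WeilCohomology Pool.Agent.H281R3.HT Pool.Agent.TH132.A
open Pool.Agent.W552 (AS RatSub)
open Pool.Agent.H88.FL hiding bf bf_apply sg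

section psd

open Matrix

variable {I : Type} [Fintype I] [DecidableEq I] {κ : Type} [Fintype κ]

/-- **The characteristic polynomial of a sum of symmetric idempotent matrices.** -/
theorem charpoly_root {E : κ → Matrix I I ℚ} (hs : ∀ p, (E p)ᵀ = E p) (hi : ∀ p, E p * E p = E p)
    {μ : ℝ} (hμ : ((∑ p, E p).charpoly.map (algebraMap ℚ ℝ)).IsRoot μ) : 0 ≤ μ := by
  set A : Matrix I I ℝ := (∑ p, E p).map (algebraMap ℚ ℝ) with hA
  have h1 : ((∑ p, E p).charpoly.map (algebraMap ℚ ℝ)) = A.charpoly :=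
    (Matrix.charpoly_map _ _).symm
  rw [h1, Polynomial.IsRoot, Matrix.eval_charpoly] at hμ
  obtain ⟨v, hv0, hv⟩ := Matrix.exists_mulVec_eq_zero_iff.2 hμ
  have h2 : A *ᵥ v = μ • v := by
    rw [Matrix.sub_mulVec, sub_eq_zero] at hv
    rw [← hv]
    ext i
    simp [Matrix.mulVec, dotProduct, Matrix.scalar_apply, Matrix.diagonal_apply]
  have h3 : v ⬝ᵥ (A *ᵥ v) = ∑ p, ((E p).map (algebraMap ℚ ℝ) *ᵥ v) ⬝ᵥ
      ((E p).map (algebraMap ℚ ℝ) *ᵥ v) := by
    have h4 : A = ∑ p, (E p).map (algebraMap ℚ ℝ) := by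
      rw [hA]
      ext i j
      simp [Matrix.sum_apply]
    rw [h4, Matrix.sum_mulVec, dotProduct_sum]
    refine Finset.sum_congr rfl fun p _ => ?_
    have h5 : ((E p).map (algebraMap ℚ ℝ))ᵀ = (E p).map (algebraMap ℚ ℝ) := by
      rw [← Matrix.transpose_map, hs]
    have h6 : (E p).map (algebraMap ℚ ℝ) * (E p).map (algebraMap ℚ ℝ) =
        (E p).map (algebraMap ℚ ℝ) := by
      rw [← Matrix.map_mul, hi]
    conv_lhs => rw [← h6, ← mulVec_mulVec]
    rw [dotProduct_mulVec, ← mulVec_transpose, h5]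
  rw [h2, dotProduct_smul, smul_eq_mul] at h3
  have h4 : 0 ≤ μ * (v ⬝ᵥ v) := by
    rw [h3]
    exact Finset.sum_nonneg fun p _ => by
      rw [dotProduct]
      exact Finset.sum_nonneg fun i _ => mul_self_nonneg _
  have h5 : 0 < v ⬝ᵥ v := by
    rw [dotProduct]
    have h6 : ∃ i, v i ≠ 0 := Function.ne_iff.1 hv0
    obtain ⟨i, hi⟩ := h6
    exact Finset.sum_pos' (fun j _ => mul_self_nonneg _)
      ⟨i, Finset.mem_univ _, mul_self_pos.2 hi⟩
  by_contra h6
  push Not at h6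
  nlinarith

end psd

variable {k : Type u} [Field k] {𝒱 : VarClass k} {ops : CycleOps 𝒱}
  {W : WeilCohomology.{u, v} ops} {Z : Polarized 𝒱} {n : ℕ} {Q : Fin (n + 1) → Polarized 𝒱}

theorem Slot.op_op {s : Fin (n + 1)} (D : Slot W Z Q s) (x : W.H (VV ops Z (n + 1) Q)) :
    D.op (D.op x) = D.op x := by
  have h1 : D.op ∘ₗ D.op = D.op := by
    apply rem_ext s
    intro a b
    rw [LinearMap.comp_apply, D.op_slot, D.op_slot, D.dual.al_span (D.dual.al_mem a)]
  exact congrArg (fun L => L x) h1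

section slots

variable {F : Module.End W.K (W.H (VV ops Z (n + 1) Q))}
  {F' : ∀ s, Module.End W.K (W.H (VV ops Z n fun t => Q (Fin.succAbove s t)))}
  (HS : ∀ s, HSlot W Z Q s F (F' s)) (tF : Low W (VV ops Z (n + 1) Q) (mixProd ops Z (n + 1) Q).D F)
  (hD : (VV ops Z (n + 1) Q).IsCyc 1 (mixProd ops Z (n + 1) Q).D)
  (hsym : ∀ s x y, AS W _ x → AS W _ y → bV W Z (fun t => Q (Fin.succAbove s t)) (F' s) x y =
    bV W Z (fun t => Q (Fin.succAbove s t)) (F' s) y x)
  (hpos : ∀ s x, AS W _ x → x ≠ 0 → ∃ q : ℚ, 0 < q ∧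
    bV W Z (fun t => Q (Fin.succAbove s t)) (F' s) x x = q)

include hpos

theorem op_form (s : Fin (n + 1)) {x : W.H (VV ops Z (n + 1) Q)} (hx : AS W _ x) :
    ∃ q : ℚ, 0 ≤ q ∧ (q = 0 → (HS s).S.op x = 0) ∧ bV W Z Q F ((HS s).S.op x) x = q := by
  have h1 : ∀ i, ∃ q : ℚ, 0 ≤ q ∧ (q = 0 → (HS s).U i x = 0) ∧
      bV W Z (fun t => Q (Fin.succAbove s t)) (F' s) ((HS s).U i x) ((HS s).U i x) = q := by
    intro i
    by_cases h0 : (HS s).U i x = 0
    · exact ⟨0, le_rfl, fun _ => h0, by rw [h0, map_zero, Rat.cast_zero]⟩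
    · obtain ⟨q, hq, hq'⟩ := hpos s _ ((HS s).U_AS i x hx) h0
      exact ⟨q, hq.le, fun h => absurd h hq.ne', hq'⟩
  choose q hq hq0 hq' using h1
  refine ⟨∑ i, (HS s).w i * q i, Finset.sum_nonneg fun i _ =>
    mul_nonneg ((HS s).w_pos i).le (hq i), fun h0 => ?_, ?_⟩
  · apply (HS s).op_zero
    intro i
    apply hq0
    have h2 := (Finset.sum_eq_zero_iff_of_nonneg fun i _ =>
      mul_nonneg ((HS s).w_pos i).le (hq i)).1 h0 i (Finset.mem_univ _)
    exact (mul_eq_zero.1 h2).resolve_left ((HS s).w_pos i).ne'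
  · rw [(HS s).form]
    push_cast
    exact Finset.sum_congr rfl fun i _ => by rw [hq']

omit hpos

include tF hD hsym

theorem op_self (s : Fin (n + 1)) {x y : W.H (VV ops Z (n + 1) Q)} (hx : AS W _ x)
    (hy : AS W _ y) : bV W Z Q F ((HS s).S.op x) y = bV W Z Q F x ((HS s).S.op y) := by
  have h1 : bV W Z Q F ((HS s).S.op x) y = bV W Z Q F ((HS s).S.op y) x := by
    rw [(HS s).form, (HS s).form]
    exact Finset.sum_congr rfl fun i _ => by
      rw [hsym s _ _ ((HS s).U_AS i x hx) ((HS s).U_AS i y hy)]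
  rw [h1]
  exact bf_symm_AS hD tF ((HS s).S.op_AS hy) hx

include hpos

theorem op_split (s : Fin (n + 1)) {x : W.H (VV ops Z (n + 1) Q)} (hx : AS W _ x) :
    ∃ q : ℚ, 0 ≤ q ∧ (q = 0 → (HS s).S.op x = 0) ∧ bV W Z Q F x x = q +
      bV W Z Q F (x - (HS s).S.op x) (x - (HS s).S.op x) := by
  obtain ⟨q, hq, hq0, hq'⟩ := op_form HS hpos s hx
  refine ⟨q, hq, hq0, ?_⟩
  have h1 := op_self HS tF hD hsym s hx hx
  have h2 := op_self HS tF hD hsym s ((HS s).S.op_AS hx) hx
  rw [Slot.op_op] at h2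
  simp only [map_sub, LinearMap.sub_apply]
  rw [← h1, ← h2, hq']
  ring

theorem ptt_split (l : List (Fin (n + 1))) {x : W.H (VV ops Z (n + 1) Q)} (hx : AS W _ x) :
    ∃ q : ℚ, 0 ≤ q ∧ (q = 0 → ptt (fun s => (HS s).S) l x = x) ∧ bV W Z Q F x x = q +
      bV W Z Q F (ptt (fun s => (HS s).S) l x) (ptt (fun s => (HS s).S) l x) := by
  induction l with
  | nil =>
    refine ⟨0, le_rfl, fun _ => ?_, ?_⟩
    · rw [ptt_nil, Module.End.one_apply]
    · rw [ptt_nil, Module.End.one_apply, Rat.cast_zero, zero_add]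
  | cons s l ih =>
    obtain ⟨q, hq, hq0, hq'⟩ := ih
    have h1 : AS W _ (ptt (fun s => (HS s).S) l x) :=
      (ptt_spec (fun s => (HS s).S) (M := fun _ => True) trivial (fun _ _ _ _ => trivial)
        (fun _ _ _ => trivial) l hx).1
    obtain ⟨q', hq1, hq2, hq3⟩ := op_split HS tF hD hsym hpos s h1
    refine ⟨q + q', add_nonneg hq hq1, fun h0 => ?_, ?_⟩
    · have h2 : q = 0 := by linarith
      have h3 : q' = 0 := by linarith
      have h4 := hq2 h3
      rw [ptt_cons]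
      change _ - (HS s).S.op _ = _
      rw [h4, sub_zero, hq0 h2]
    · rw [ptt_cons, hq', hq3]
      push_cast
      ring

omit hpos

theorem ptt_self (l : List (Fin (n + 1))) {z y : W.H (VV ops Z (n + 1) Q)} (hz : AS W _ z)
    (hy : AS W _ y) (hy0 : ∀ s, (HS s).S.op y = 0) :
    bV W Z Q F (ptt (fun s => (HS s).S) l z) y = bV W Z Q F z y := by
  induction l with
  | nil => rw [ptt_nil, Module.End.one_apply]
  | cons s l ih =>
    have h1 : AS W _ (ptt (fun s => (HS s).S) l z) :=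
      (ptt_spec (fun s => (HS s).S) (M := fun _ => True) trivial (fun _ _ _ _ => trivial)
        (fun _ _ _ => trivial) l hz).1
    rw [ptt_cons, map_sub, LinearMap.sub_apply, ih]
    change _ - bV W Z Q F ((HS s).S.op _) y = _
    rw [op_self HS tF hD hsym s h1 hy, hy0, map_zero, sub_zero]

end slots

theorem ptt_fix (D : ∀ s, Slot W Z Q s) (l : List (Fin (n + 1))) {y : W.H (VV ops Z (n + 1) Q)}
    (hy0 : ∀ s, (D s).op y = 0) : ptt D l y = y := by
  induction l with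
  | nil => rw [ptt_nil, Module.End.one_apply]
  | cons s l ih => rw [ptt_cons, ih, hy0, sub_zero]

end Pool.Agent.H88.HT
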