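import Pool.Agent.H88.HT.Step1
import Pool.Agent.H88.FL.StepA

/-!
# The conjecture of Hodge type for the products: the induction step
-/

open CategoryTheory AlgebraicGeometry Finset Function

set_option linter.unusedSectionVars false

universe u v w

namespace Pool.Agent.H88.HT

open Pool.Agent.H914 Pool.Agent.H914.VarClass Pool.Agent.H914.VarClass.Obj
  Pool.Agent.H914.WeilCohomology Pool.Agent.H281R3.HT Pool.Agent.TH132.A Pool.Agent.TH125.Gal
open Pool.Agent.W552 (AS RatSub)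
open Pool.Agent.H88.FL hiding bf bf_apply sg

variable {k : Type u} [Field k] {𝒱 : VarClass k} {ops : CycleOps 𝒱}
  {W : WeilCohomology.{u, v} ops} {Z : Polarized 𝒱} {ι : Type} {P : ι → Polarized 𝒱} {n : ℕ}
  {c : Fin n → ι}

/-- the class is killed in coordinates in all degrees -/
theorem graded_zero {X : 𝒱.Obj} {N : ℕ} {m : ℕ} {y : ℕ → W.H X}
    (hy : ∀ j, y j ∈ grZ (W.gr X) ((2 * j : ℕ) - (m : ℤ))) (hsum : ∑ j ∈ Finset.range N, y j = 0) :
    ∀ j ∈ Finset.range N, y j = 0 := by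
  intro j hj
  by_cases hm : m ≤ 2 * j
  · obtain ⟨e, he⟩ := Nat.exists_eq_add_of_le' hm
    have hz : ∀ i, ∀ x ∈ grZ (W.gr X) ((2 * i : ℕ) - (m : ℤ)), i ≠ j →
        proj (W.isInternal X) e x = 0 := by
      intro i x hx hij
      by_cases hi : m ≤ 2 * i
      · obtain ⟨e', he'⟩ := Nat.exists_eq_add_of_le' hi
        rw [he', show (((e' + m : ℕ) : ℤ) - m) = (e' : ℕ) by push_cast; ring, grZ_natCast] at hx
        exact proj_ne _ hx (by omega)
      · rw [grZ_of_neg (by omega)] at hx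
        rw [(Submodule.mem_bot _).1 hx, map_zero]
    have h1 := congrArg (proj (W.isInternal X) e) hsum
    rw [map_sum, map_zero, Finset.sum_eq_single j (fun i _ hij => hz i _ (hy i) hij)
      (fun h => absurd hj h)] at h1
    have h2 := hy j
    rw [he, show (((e + m : ℕ) : ℤ) - m) = (e : ℕ) by push_cast; ring, grZ_natCast] at h2
    rwa [proj_same _ h2] at h1
  · have h2 := hy j
    rw [grZ_of_neg (by omega)] at h2
    exact (Submodule.mem_bot _).1 h2

section main

variable [Fintype ι] [DecidableEq ι] {g : ι → ℕ}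
  {b : ∀ i, Module.Basis (Fin (g i) × Bool) W.K (transcendental W (P i).X)}
  {Γ : Type w} [Group Γ] {χ : Γ →* W.Kˣ}
  {ρ : ∀ i, Γ →* (W.H (P i).X ≃ₐ[W.K] W.H (P i).X)} {τ : Γ →* (W.H Z.X ≃ₐ[W.K] W.H Z.X)}
  {υ : Γ →* (W.H (VV ops Z n fun s => P (c s)) ≃ₐ[W.K] W.H (VV ops Z n fun s => P (c s)))}

/-- **Traceless classes.** -/
theorem traceless_zero (S : Setting W Z P) (H : ActP χ P ρ)
    (hb : ∀ i x y, FL.bf W P i (b i x) (b i y) = sf W.K x y) (hτ : GA χ Z.X τ) (hn : 0 < n)
    (hυ : Cmp c ρ τ υ) (hGA : GA χ _ υ)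
    (hsm : ∀ e ≤ Z.X.dim, Even (n + e) → primRank W Z.X Z.D e <
      ∏ i, ((univ.filter fun s => c s = i).card + 1))
    {x : W.H (VV ops Z n fun s => P (c s))} (hx : AS W _ x)
    (htr : ∀ s t, s ≠ t → c s = c t → mv W.K (KK s t) (cd b c x) = 0)
    (v : Fin n → ∀ i, transcendental W (P i).X) : FF c x v = 0 := by
  have hev := S.even_sum c
  have hxs : x = ∑ j ∈ Finset.range ((VV ops Z n fun s => P (c s)).dim + 1),
      proj (W.isInternal (VV ops Z n fun s => P (c s))) (2 * j) x := Pool.Agent.W552.Fr.AS_sum hx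
  have hxA : ∀ j, proj (W.isInternal (VV ops Z n fun s => P (c s))) (2 * j) x ∈
      algClasses W (VV ops Z n fun s => P (c s)) j := fun j => hx.proj j
  have htr' : ∀ j ∈ Finset.range ((VV ops Z n fun s => P (c s)).dim + 1), ∀ s t, s ≠ t →
      c s = c t → mv W.K (KK s t) (cd b c
        (proj (W.isInternal (VV ops Z n fun s => P (c s))) (2 * j) x)) = 0 := by
    intro j hj s t hst hct
    funext r
    have h1 := congrFun (htr s t hst hct) r
    have h2 : mv W.K (KK s t) (cd b c x) r =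
        ∑ j ∈ Finset.range ((VV ops Z n fun s => P (c s)).dim + 1), mv W.K (KK s t)
          (cd b c (proj (W.isInternal (VV ops Z n fun s => P (c s))) (2 * j) x)) r := by
      conv_lhs => rw [hxs]
      rw [map_sum]
      simp only [mv, Finset.sum_apply, Finset.smul_sum]
      rw [Finset.sum_comm]
    rw [h2, Pi.zero_apply] at h1
    refine graded_zero (m := ∑ s, (P (c s)).X.dim)
      (y := fun j => mv W.K (KK s t)
        (cd b c (proj (W.isInternal (VV ops Z n fun s => P (c s))) (2 * j) x)) r)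
      (fun i => ?_) h1 j hj
    refine Submodule.sum_mem _ fun r' _ => Submodule.smul_mem _ _ ?_
    exact S.FF_mem c (alg_gr (hxA i)) _
  rw [FF_apply, hxs, Finset.sum_mul, map_sum]
  refine Finset.sum_eq_zero fun j hj => ?_
  rw [← FF_apply]
  refine S.FF_vanish H hb hτ hn hυ hGA (alg_gr (hxA j)) (hGA.cl_fix j _ (hxA j))
    (htr' j hj) (fun e he e' he' h2 h3 => hsm e' (by omega) ?_) v
  rw [Nat.even_iff] at hev h3 ⊢
  omega

/-- the coordinates determine the forms -/
theorem FF_of_cd {y : W.H (VV ops Z n fun s => P (c s))} (h0 : cd b c y = 0)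
    (v : Fin n → ∀ i, transcendental W (P i).X) : FF c y v = 0 := by
  have h1 : FF c y = 0 := by
    refine Module.Basis.ext_multilinear (fun _ => Pi.basis b) fun r => ?_
    rw [_root_.zero_apply]
    have h2 := congrFun h0 r
    rw [Pi.zero_apply] at h2
    rw [← h2]
    change _ = FF c y fun s => bh b (r s)
    congr 1
    funext s
    rw [Pi.basis_apply]
    rfl
  rw [h1]
  rfl

end main

/-- An operator which is positive on the algebraic classes. -/
structure PosOp (W : WeilCohomology.{u, v} ops) (Z : Polarized 𝒱) {ι : Type} (P : ι → Polarized 𝒱)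
    {n : ℕ} (c : Fin n → ι) (F T : Module.End W.K (W.H (VV ops Z n fun s => P (c s)))) :
    Prop where
  as : ∀ x, AS W _ x → AS W _ (T x)
  form : ∀ x, AS W _ x → ∃ q : ℚ, 0 ≤ q ∧ (q = 0 → T x = 0) ∧
    bV W Z (fun s => P (c s)) F (T x) x = q
  self : ∀ x y, AS W _ x → AS W _ y → bV W Z (fun s => P (c s)) F (T x) y =
    bV W Z (fun s => P (c s)) F (T y) x

theorem PosOp.sum {F : Module.End W.K (W.H (VV ops Z n fun s => P (c s)))} {κ : Type} [Fintype κ]
    {T : κ → Module.End W.K (W.H (VV ops Z n fun s => P (c s)))}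
    (h : ∀ p, PosOp W Z P c F (T p)) {x : W.H (VV ops Z n fun s => P (c s))} (hx : AS W _ x) :
    ∃ q : ℚ, 0 ≤ q ∧ (q = 0 → ∀ p, T p x = 0) ∧
      bV W Z (fun s => P (c s)) F ((∑ p, T p) x) x = q := by
  choose q hq hq0 hq' using fun p => (h p).form x hx
  refine ⟨∑ p, q p, Finset.sum_nonneg fun p _ => hq p, fun h0 p => ?_, ?_⟩
  · exact hq0 p ((Finset.sum_eq_zero_iff_of_nonneg fun p _ => hq p).1 h0 p (Finset.mem_univ _))
  · rw [LinearMap.sum_apply, map_sum, LinearMap.sum_apply, Rat.cast_sum]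
    exact Finset.sum_congr rfl fun p _ => hq' p

section step

variable [Fintype ι] [DecidableEq ι] {g : ι → ℕ}
  {b : ∀ i, Module.Basis (Fin (g i) × Bool) W.K (transcendental W (P i).X)}

/-- **The contractions are positive.** -/
theorem exists_posop (S : Setting W Z P)
    (hb : ∀ i x y, FL.bf W P i (b i x) (b i y) = sf W.K x y)
    (h1 : (1 : W.H (VV ops Z n fun s => P (c s))) ≠ 0)
    {F : Module.End W.K (W.H (VV ops Z n fun s => P (c s)))}
    (tF : Low W (VV ops Z n fun s => P (c s)) (mixProd ops Z n fun s => P (c s)).D F)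
    (ihA : ∀ m < n, ∀ c' : Fin m → ι, LA W Z P c')
    (ihH : ∀ m < n, ∀ c' : Fin m → ι, HodgeType W (VV ops Z m fun s => P (c' s))
      (mixProd ops Z m fun s => P (c' s)).D) {s t : Fin n} (hst : s ≠ t) (hc : c s = c t) :
    ∃ T : Module.End W.K (W.H (VV ops Z n fun s => P (c s))), PosOp W Z P c F T ∧
      ∀ h, cd b c (T h) = mv W.K (KK s t) (cd b c h) := by
  obtain ⟨m, c', R, θ, κ, l, hm, hθ, hθg, hdim, hκ, hL, hT⟩ := exists_pdata S hb c h1 hst hc
  obtain ⟨F', tF'⟩ := S.exists_low c'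
  refine ⟨(κ : W.K) • (LinearMap.mulLeft W.K θ ∘ₗ (W.map R).toLinearMap ∘ₗ W.push R ∘ₗ
    LinearMap.mulLeft W.K θ), ⟨fun x hx => ?_, fun x hx => ?_, fun x y hx hy => ?_⟩, hT⟩
  · exact (hθ.mul (((hθ.mul hx).push R).map R)).smul κ
  · have hU : AS W _ (W.push R (θ * x)) := (hθ.mul hx).push R
    have h2 : ∃ q : ℚ, 0 ≤ q ∧ (q = 0 → W.push R (θ * x) = 0) ∧
        W552.bf W _ (mixProd ops Z m fun s => P (c' s)).D F' (W.push R (θ * x))
          (W.push R (θ * x)) = q := by
      by_cases h0 : W.push R (θ * x) = 0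
      · exact ⟨0, le_rfl, fun _ => h0, by rw [h0, map_zero, Rat.cast_zero]⟩
      · obtain ⟨q, hq, hq'⟩ := bf_pos' (S.cycV c') tF' (ihA m hm c') (ihH m hm c') hU h0
        exact ⟨q, hq.le, fun h => absurd h hq.ne', hq'⟩
    obtain ⟨q, hq, hq0, hq'⟩ := h2
    refine ⟨κ * (-1) ^ l * q, mul_nonneg hκ hq, fun h0 => ?_, ?_⟩
    · change (κ : W.K) • (θ * W.map R (W.push R (θ * x))) = 0
      rcases mul_eq_zero.1 h0 with h3 | h3
      · have h4 : κ = 0 := (mul_eq_zero.1 h3).resolve_right (pow_ne_zero _ (by norm_num))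
        rw [h4, Rat.cast_zero, zero_smul]
      · rw [hq0 h3, map_zero, mul_zero, smul_zero]
    · change W552.bf W _ (mixProd ops Z n fun s => P (c s)).D F
        ((κ : W.K) • (θ * W.map R (W.push R (θ * x)))) x = _
      rw [map_smul, LinearMap.smul_apply, bf_contr tF tF' hθ hθg hdim hL hU x, hq', smul_eq_mul]
      push_cast
      ring
  · have hU : AS W _ (W.push R (θ * x)) := (hθ.mul hx).push R
    have hU' : AS W _ (W.push R (θ * y)) := (hθ.mul hy).push R
    change W552.bf W _ (mixProd ops Z n fun s => P (c s)).D F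
        ((κ : W.K) • (θ * W.map R (W.push R (θ * x)))) y =
      W552.bf W _ (mixProd ops Z n fun s => P (c s)).D F
        ((κ : W.K) • (θ * W.map R (W.push R (θ * y)))) x
    rw [map_smul, LinearMap.smul_apply, map_smul, LinearMap.smul_apply,
      bf_contr tF tF' hθ hθg hdim hL hU y, bf_contr tF tF' hθ hθg hdim hL hU' x,
      bf_symm_AS (S.cycV c') tF' hU hU']

end step

section ind

variable [Fintype ι] [DecidableEq ι] {g : ι → ℕ} {c : Fin (n + 1) → ι}
  {b : ∀ i, Module.Basis (Fin (g i) × Bool) W.K (transcendental W (P i).X)}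
  {Γ : Type w} [Group Γ] {χ : Γ →* W.Kˣ}
  {ρ : ∀ i, Γ →* (W.H (P i).X ≃ₐ[W.K] W.H (P i).X)} {τ : Γ →* (W.H Z.X ≃ₐ[W.K] W.H Z.X)}
  {υ : Γ →* (W.H (VV ops Z (n + 1) fun s => P (c s)) ≃ₐ[W.K]
    W.H (VV ops Z (n + 1) fun s => P (c s)))}

/-- **The induction step for the conjecture of Hodge type.** -/
theorem stepH (S : Setting W Z P) (hPH : ∀ i, HodgeType W (P i).X (P i).D) (H : ActP χ P ρ)
    (hb : ∀ i x y, FL.bf W P i (b i x) (b i y) = sf W.K x y) (hτ : GA χ Z.X τ)
    (hυ : Cmp c ρ τ υ) (hGA : GA χ _ υ)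
    (h1 : (1 : W.H (VV ops Z (n + 1) fun s => P (c s))) ≠ 0)
    (ihA : ∀ m < n + 1, ∀ c' : Fin m → ι, LA W Z P c')
    (ihH : ∀ m < n + 1, ∀ c' : Fin m → ι, HodgeType W (VV ops Z m fun s => P (c' s))
      (mixProd ops Z m fun s => P (c' s)).D) (hLc : LA W Z P c)
    (hsm : ∀ e ≤ Z.X.dim, Even (n + 1 + e) → primRank W Z.X Z.D e <
      ∏ i, ((univ.filter fun s => c s = i).card + 1)) :
    HodgeType W (VV ops Z (n + 1) fun s => P (c s)) (mixProd ops Z (n + 1) fun s => P (c s)).D := by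
  classical
  obtain ⟨F, tF⟩ := S.exists_low c
  have hD := S.cycV c
  have hT0 : ∀ s, ∀ y ∈ transcendental W (P (c s)).X, OddC W y :=
    fun s y hy => ⟨_, S.odd _, S.mid _ hy⟩
  choose F' tF' using fun s : Fin (n + 1) => S.exists_low fun t => c (s.succAbove t)
  obtain ⟨HS⟩ : Nonempty (∀ s, HSlot W Z (fun s => P (c s)) s F (F' s)) := by
    refine ⟨fun s => ?_⟩
    have h2 : Nonempty (HSlot W Z (fun s => P (c s)) s F (F' s)) := by
      obtain ⟨f, tf, hf⟩ := S.exists_low' (c s)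
      exact exists_hslot tF tf (tF' s) (S.cycV _) (S.cyc _) hf
        (lefschetzA_of_D (S.cyc _) (S.hard _) (S.num _)) (hPH _) (fun t => S.num _) h1
    exact h2.some
  have hsym' : ∀ s x y, AS W _ x → AS W _ y →
      bV W Z (fun t => P (c (Fin.succAbove s t))) (F' s) x y =
        bV W Z (fun t => P (c (Fin.succAbove s t))) (F' s) y x :=
    fun s x y hx hy => bf_symm_AS (S.cycV _) (tF' s) hx hy
  have hpos' : ∀ s x, AS W _ x → x ≠ 0 → ∃ q : ℚ, 0 < q ∧
      bV W Z (fun t => P (c (Fin.succAbove s t))) (F' s) x x = q :=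
    fun s x hx hx0 => bf_pos' (S.cycV _) (tF' s) (ihA n (by omega) _) (ihH n (by omega) _) hx hx0
  -- the totally transcendental classes
  set M : W.H (VV ops Z (n + 1) fun s => P (c s)) → Prop :=
    fun x => AS W _ x ∧ ∀ s, (HS s).S.op x = 0 with hMdef
  have hM : RatSub W.K M := by
    refine ⟨⟨AS.zero, fun s => map_zero _⟩, fun hx hy => ⟨hx.1.add hy.1, fun s => ?_⟩,
      fun q x hx => ⟨hx.1.smul q, fun s => ?_⟩⟩
    · rw [map_add, hx.2, hy.2, add_zero]
    · rw [map_smul, hx.2, smul_zero]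
  set pt : Module.End W.K (W.H (VV ops Z (n + 1) fun s => P (c s))) :=
    ptt (fun s => (HS s).S) (List.finRange (n + 1)) with hpt
  have hptM : ∀ x, AS W _ x → M (pt x) := fun x hx =>
    ⟨(ptt_spec (fun s => (HS s).S) (M := fun _ => True) trivial (fun _ _ _ _ => trivial)
        (fun _ _ _ => trivial) _ hx).1, fun s => op_ptt (fun s => (HS s).S) hT0 s x⟩
  have hptF : ∀ x, (∀ v, FF c x v = 0) → pt x = 0 := by
    intro h hF
    refine ptt_zero (fun s => (HS s).S) hT0 (h := h) ?_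
    intro x hx
    have h2 := hF fun s => Pi.single (c s) ⟨x s, hx s⟩
    rw [FF_apply] at h2
    have h3 : (FL.ev c fun s => Pi.single (c s)
        (⟨x s, hx s⟩ : transcendental W (P (c s)).X)) = x := by
      funext s
      rw [FL.ev, Pi.single_eq_same]
    rwa [h3] at h2
  have hptcd : ∀ x, cd b c (pt x) = cd b c x := by
    intro x
    funext r
    rw [cd_apply, cd_apply]
    exact ptt_push (fun s => (HS s).S) _ x (S.ev_odd c _) fun s => (bh b (r s) (c s)).2
  -- the operators for the pairs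
  set κ := {p : Fin (n + 1) × Fin (n + 1) // p.1 ≠ p.2 ∧ c p.1 = c p.2} with hκ
  have h2 : ∀ p : κ, ∃ T : Module.End W.K (W.H (VV ops Z (n + 1) fun s => P (c s))),
      PosOp W Z P c F T ∧ ∀ h, cd b c (T h) = mv W.K (KK p.1.1 p.1.2) (cd b c h) :=
    fun p => exists_posop S hb h1 tF ihA ihH p.2.1 p.2.2
  choose T hT1 hT2 using h2
  set A : Module.End W.K (W.H (VV ops Z (n + 1) fun s => P (c s))) := ∑ p, T p with hAdef
  set E : Matrix (Fin (n + 1) → J g) (Fin (n + 1) → J g) ℚ := ∑ p : κ, KK p.1.1 p.1.2 with hE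
  have hA : ∀ x, cd b c (A x) = mv W.K E (cd b c x) := by
    intro x
    rw [hAdef, hE, LinearMap.sum_apply, map_sum, mv_sum]
    exact Finset.sum_congr rfl fun p _ => hT2 p x
  have hAS : ∀ x, AS W _ x → AS W _ (A x) := by
    intro x hx
    rw [hAdef, LinearMap.sum_apply]
    exact AS.ratSub.sum _ fun p _ => (hT1 p).as x hx
  have hTT : ∀ x, cd b c ((pt * A) x) = mv W.K E (cd b c x) := fun x => by
    rw [Module.End.mul_apply, hptcd, hA]
  have hself : ∀ z y, AS W _ z → M y → bV W Z (fun s => P (c s)) F (pt z) y =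
      bV W Z (fun s => P (c s)) F z y :=
    fun z y hz hy => ptt_self HS tF hD hsym' _ hz hy.1 hy.2
  have hfix : ∀ y, M y → pt y = y := fun y hy => ptt_fix (fun s => (HS s).S) _ hy.2
  have key : ∀ x, M x → x ≠ 0 → ∃ q : ℚ, 0 < q ∧ bV W Z (fun s => P (c s)) F x x = q := by
    intro x hx hx0
    refine pos_of_roots hM (bV W Z (fun s => P (c s)) F)
      (fun x y hx hy => bf_symm_AS hD tF hx.1 hy.1)
      (fun x y hx hy => bf_rat' hD tF (S.stable hLc tF) hx.1 hy.1)
      (T := pt * A) (fun x hx => hptM _ (hAS x hx.1)) (fun x y hx hy => ?_)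
      (fun x hx hx0 => ?_) (r := E.charpoly) (fun μ hμ => ?_) (fun x hx => ?_) hx hx0
    · rw [Module.End.mul_apply, Module.End.mul_apply, hself _ _ (hAS x hx.1) hy,
        bf_symm_AS hD tF hx.1 (hptM _ (hAS y hy.1)).1, hself _ _ (hAS y hy.1) hx, hAdef,
        LinearMap.sum_apply, LinearMap.sum_apply, map_sum, map_sum, LinearMap.sum_apply,
        LinearMap.sum_apply]
      exact Finset.sum_congr rfl fun p _ => (hT1 p).self x y hx.1 hy.1
    · obtain ⟨q, hq, hq0, hq'⟩ := PosOp.sum hT1 hx.1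
      rw [Module.End.mul_apply, hself _ _ (hAS x hx.1) hx]
      refine ⟨q, lt_of_le_of_ne hq fun h0 => hx0 ?_, hq'⟩
      have h3 := hq0 h0.symm
      rw [← hfix x hx]
      refine hptF x (traceless_zero S H hb hτ (Nat.succ_pos n) hυ hGA hsm hx.1 ?_)
      intro s t hst hct
      rw [← hT2 ⟨(s, t), hst, hct⟩, h3, map_zero]
    · exact charpoly_root (E := fun p : κ => KK p.1.1 p.1.2) (fun p => KK_symm p.2.1)
        (fun p => KK_idem p.2.1) hμ
    · have h3 : M (pe E.charpoly (pt * A) x) :=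
        pe_pres hM.zero (fun x y => hM.add) (fun q x => hM.smul q)
          (fun x hx => hptM (A x) (hAS x hx.1)) x hx
      rw [← hfix _ h3]
      refine hptF _ (FF_of_cd (b := b) ?_)
      rw [pe_coord (cd b c) hTT, Matrix.aeval_self_charpoly, mv_zero]
  refine hodge_of_pos tF hD fun x hx hx0 => ?_
  obtain ⟨q, hq, hq0, hq'⟩ := ptt_split HS tF hD hsym' hpos' (List.finRange (n + 1)) hx
  by_cases h3 : pt x = 0
  · refine ⟨q, lt_of_le_of_ne hq fun h0 => hx0 ?_, ?_⟩
    · rw [← hq0 h0.symm]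
      exact h3
    · refine hq'.trans ?_
      rw [← hpt, h3, map_zero, add_zero]
  · obtain ⟨q', hq1, hq2⟩ := key _ (hptM x hx) h3
    refine ⟨q + q', add_pos_of_nonneg_of_pos hq hq1, ?_⟩
    refine hq'.trans ?_
    rw [← hpt, hq2, Rat.cast_add]

end ind

end Pool.Agent.H88.HT
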