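import Pool.Agent.H88.HT.Step2
import Pool.Agent.H88.FL.ThmA
import Pool.Agent.H88.FL.Level

/-!
# The conjecture of Hodge type for all products
-/

open CategoryTheory AlgebraicGeometry Finset Function

set_option linter.unusedSectionVars false

universe u v w

namespace Pool.Agent.H88.HT

open Pool.Agent.H914 Pool.Agent.H914.VarClass Pool.Agent.H914.VarClass.Obj
  Pool.Agent.H914.WeilCohomology Pool.Agent.H281R3.HT Pool.Agent.TH132.A Pool.Agent.TH125.Gal
open Pool.Agent.W552 (AS RatSub)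
open Pool.Agent.H88.FL hiding bf bf_apply sg

variable {k : Type u} [Field k] {𝒱 : VarClass k} {ops : CycleOps 𝒱}
  {W : WeilCohomology.{u, v} ops} {Γ : Type w} [Group Γ] {χ : Γ →* W.Kˣ} {G : Set (GVar W Γ)}
  {ι : Type} {X : ι → GVar W Γ} {D : ∀ i, (X i).X.Cycles} {Z : GVar W Γ} {E : Z.X.Cycles}

/-- the conjecture of Hodge type for varieties without cohomology -/
theorem hodgeType_of_zero {X : 𝒱.Obj} (h : (1 : W.H X) = 0) (D : X.Cycles) :
    HodgeType W X D := by
  intro j _ z _ _ hz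
  exact absurd (by rw [← one_mul (W.cl X z), h, zero_mul]) hz

/-- the conjecture D -/
theorem homEqNum_of_AH {X : 𝒱.Obj} {D : X.Cycles} (hD : X.IsCyc 1 D)
    {f : Module.End W.K (W.H X)} (t : Low W X D f) (hA : LefschetzA W X D)
    (hH : HodgeType W X D) : HomEqNum W X := by
  intro j hj z hz hnum
  by_contra h0
  obtain ⟨q, hq, hq'⟩ := bf_pos' hD t hA hH (AS.of (W := W) ⟨z, hz, rfl⟩) h0
  have h1 : AS W X (W552.st W X D f (W.cl X z)) :=
    st_AS' hD t (stable_of_lefschetzA hD t hA) (AS.of ⟨z, hz, rfl⟩)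
  have h2 : ∀ x, AS W X x → W.tr X (W.cl X z * x) = 0 := by
    intro x hx
    refine AS.ind (p := fun x => W.tr X (W.cl X z * x) = 0) ?_ ?_ hx
    · rintro i _ ⟨w, hw, rfl⟩
      by_cases hi : j + i = X.dim
      · rw [← W.cl_mul, W.tr_cl]
        · rw [hnum w (by rwa [show X.dim - j = i by omega]), Rat.cast_zero]
        · have := ops.mul_mem hz hw
          rwa [hi] at this
      · rw [W.tr_eq_zero (W.mul_mem (W.cl_mem hz) (W.cl_mem hw)) (by omega)]
    · intro a b ha hb
      rw [mul_add, map_add, ha, hb, add_zero]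
  rw [W552.bf_apply, h2 _ h1] at hq'
  have : q = 0 := by exact_mod_cast hq'.symm
  exact hq.ne' this

/-- The case of finitely many varieties. -/
theorem OddFamily.finite_caseH [Fintype ι] [DecidableEq ι] (h : OddFamily χ G X D)
    (hPH : ∀ i, HodgeType W (X i).X (D i)) (hZ : Z ∈ G)
    (hE : Z.X.IsCyc 1 E) (hH : HardLefschetz W Z.X E) (hLZ : LefschetzA W Z.X E)
    (hHZ : HodgeType W Z.X E)
    (hs : ∀ n, 0 < n → ∀ c : Fin n → ι, (∃ e ≤ Z.X.dim, Even (n + e) ∧
      ∏ i, ((univ.filter fun s => c s = i).card + 1) ≤ primRank W Z.X E e) →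
        LefschetzA W (mixed X D Z E c).X (mixed X D Z E c).D ∧
          HodgeType W (mixed X D Z E c).X (mixed X D Z E c).D) (n : ℕ) :
    ∀ c : Fin n → ι, LefschetzA W (mixed X D Z E c).X (mixed X D Z E c).D ∧
          HodgeType W (mixed X D Z E c).X (mixed X D Z E c).D := by
  induction n using Nat.strong_induction_on with
  | _ n ih =>
    intro c
    by_cases h1 : (1 : W.H (VV ops ⟨Z.X, E⟩ n fun s => gp X D (c s))) = 0
    · exact ⟨lefschetzA_of_zero h1 _, hodgeType_of_zero h1 _⟩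
    match n, ih, c, h1 with
    | 0, ih, c, h1 => exact ⟨hLZ, hHZ⟩
    | n + 1, ih, c, h1 =>
    by_cases h2 : ∃ e ≤ Z.X.dim, Even (n + 1 + e) ∧
      ∏ i, ((univ.filter fun s => c s = i).card + 1) ≤ primRank W Z.X E e
    · exact hs (n + 1) (Nat.succ_pos n) c h2
    obtain ⟨υ, hυ, hc⟩ := exists_act (E := E) (D := D) h.galoisClass h.mem hZ c
    obtain ⟨g, b, hb⟩ := (h.setting hE hH).exists_bases
    have hsm : ∀ e ≤ Z.X.dim, Even (n + 1 + e) → primRank W Z.X E e <
        ∏ i, ((univ.filter fun s => c s = i).card + 1) := by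
      intro e he hev
      by_contra h3
      exact h2 ⟨e, he, hev, not_lt.1 h3⟩
    have hL : LA W ⟨Z.X, E⟩ (gp X D) c :=
      (h.setting hE hH).stepA h.actP hb (h.galoisClass.galois _ hZ) (Nat.succ_pos n) hc
        (h.galoisClass.galois _ hυ) h1 (fun m hm c' => (ih m hm c').1)
        fun e he hev => hsm e he.le hev
    exact ⟨hL, stepH (h.setting hE hH) hPH h.actP hb (h.galoisClass.galois _ hZ) hc
      (h.galoisClass.galois _ hυ) h1 (fun m hm c' => (ih m hm c').1)
      (fun m hm c' => (ih m hm c').2) hL hsm⟩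

/-- **The finite level theorem for the conjectures A and of Hodge type.** -/
theorem OddFamily.hodge_iff [DecidableEq ι] (h : OddFamily χ G X D)
    (hPH : ∀ i, HodgeType W (X i).X (D i)) (hZ : Z ∈ G)
    (hE : Z.X.IsCyc 1 E) (hH : HardLefschetz W Z.X E) :
    (∀ (n : ℕ) (c : Fin n → ι), LefschetzA W (mixed X D Z E c).X (mixed X D Z E c).D ∧
      HodgeType W (mixed X D Z E c).X (mixed X D Z E c).D ∧
        HomEqNum W (mixed X D Z E c).X) ↔
    (LefschetzA W Z.X E ∧ HodgeType W Z.X E) ∧ ∀ (n : ℕ) (c : Fin n → ι), 0 < n →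
      (∃ e ≤ Z.X.dim, Even (n + e) ∧ n < primRank W Z.X E e ∧ level c ≤ primRank W Z.X E e) →
        LefschetzA W (mixed X D Z E c).X (mixed X D Z E c).D ∧
          HodgeType W (mixed X D Z E c).X (mixed X D Z E c).D := by
  constructor
  · intro h1
    exact ⟨⟨(h1 0 Fin.elim0).1, (h1 0 Fin.elim0).2.1⟩, fun n c _ _ => ⟨(h1 n c).1, (h1 n c).2.1⟩⟩
  rintro ⟨⟨hLZ, hHZ⟩, hs⟩ n c
  -- the colours which are used
  set I : Finset ι := univ.image c with hI
  have hc : ∀ s, c s ∈ I := fun s => mem_image_of_mem c (mem_univ s)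
  have h1 := OddFamily.finite_caseH (h.comp (fun i : I => (i : ι)) Subtype.val_injective)
    (fun i => hPH i) hZ hE hH
    hLZ hHZ (fun m hm c' hc' => hs m (fun s => (c' s : ι)) hm ?_) n fun s => ⟨c s, hc s⟩
  · have hcy := (h.setting hE hH).cycV c
    obtain ⟨F, tF⟩ := (h.setting hE hH).exists_low c
    exact ⟨h1.1, h1.2, homEqNum_of_AH hcy tF h1.1 h1.2⟩
  obtain ⟨e, he, hev, hle⟩ := hc'
  have hle' : level (fun s => (c' s : ι)) ≤ primRank W Z.X E e := by
    refine le_trans (le_of_eq ?_) hle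
    rw [level]
    have h2 : ∀ i : I, (univ.filter fun s => (c' s : ι) = (i : ι)) =
        (univ.filter fun s => c' s = i) := by
      intro i
      ext s
      rw [mem_filter, mem_filter, Subtype.ext_iff]
    have h3 : ∏ i : I, ((univ.filter fun s => c' s = i).card + 1) =
        ∏ i ∈ I, ((univ.filter fun s => (c' s : ι) = i).card + 1) := by
      rw [← Finset.prod_coe_sort I fun i => (univ.filter fun s => (c' s : ι) = i).card + 1]
      exact Finset.prod_congr rfl fun i _ => by rw [h2 i]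
    rw [h3]
    refine Finset.prod_subset ?_ ?_
    · intro i hi
      obtain ⟨s, _, rfl⟩ := mem_image.1 hi
      exact (c' s).2
    · intro i _ hi
      have h4 : (univ.filter fun s => (c' s : ι) = i) = ∅ := by
        rw [filter_eq_empty_iff]
        intro s _ hs'
        exact hi (mem_image.2 ⟨s, mem_univ s, hs'⟩)
      rw [h4, card_empty, zero_add]
  exact ⟨e, he, hev, lt_of_lt_of_le (lt_level _) hle', hle'⟩

end Pool.Agent.H88.HT
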